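import Pool.Agent.MHF.St
import Pool.Agent.Mir.Prob

/-!
# Module Adj (neighbouring lines), statement `St_Adj` of `Pool/Agent/MHF/St.lean`
-/

set_option autoImplicit false

open MeasureTheory Filter Mir

noncomputable section

namespace Pool.Agent.MHF

namespace Adjx

/-- One step of the ray, coordinatewise. -/
theorem step4 (ω : Conf) (s : State) (n : ℕ) :
    ((ray ω s (n + 1)).2 = Dir.N ∧ (ray ω s (n + 1)).1.1 = (ray ω s n).1.1 ∧
      (ray ω s (n + 1)).1.2 = (ray ω s n).1.2 + 1) ∨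
    ((ray ω s (n + 1)).2 = Dir.S ∧ (ray ω s (n + 1)).1.1 = (ray ω s n).1.1 ∧
      (ray ω s (n + 1)).1.2 = (ray ω s n).1.2 - 1) ∨
    ((ray ω s (n + 1)).2 = Dir.E ∧ (ray ω s (n + 1)).1.1 = (ray ω s n).1.1 + 1 ∧
      (ray ω s (n + 1)).1.2 = (ray ω s n).1.2) ∨
    ((ray ω s (n + 1)).2 = Dir.W ∧ (ray ω s (n + 1)).1.1 = (ray ω s n).1.1 - 1 ∧
      (ray ω s (n + 1)).1.2 = (ray ω s n).1.2) := by
  have h := ray_prev ω s n
  have h1 := congrArg Prod.fst h
  have h2 := congrArg Prod.snd h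
  cases hd : (ray ω s (n + 1)).2 with
  | N =>
    rw [hd] at h1 h2
    simp only [vec, Prod.fst_sub, Prod.snd_sub] at h1 h2
    left
    exact ⟨rfl, by omega, by omega⟩
  | S =>
    rw [hd] at h1 h2
    simp only [vec, Prod.fst_sub, Prod.snd_sub] at h1 h2
    right; left
    exact ⟨rfl, by omega, by omega⟩
  | E =>
    rw [hd] at h1 h2
    simp only [vec, Prod.fst_sub, Prod.snd_sub] at h1 h2
    right; right; left
    exact ⟨rfl, by omega, by omega⟩
  | W =>
    rw [hd] at h1 h2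
    simp only [vec, Prod.fst_sub, Prod.snd_sub] at h1 h2
    right; right; right
    exact ⟨rfl, by omega, by omega⟩

/-- The core argument, for a sign `e`. -/
theorem core (ω : Conf) (h : ℤ) (s : State) (e : ℤ) (he : e = 1 ∨ e = -1) (n₀ a b : ℕ)
    (ha : n₀ ≤ a) (hab : a ≤ b) (hca : Cr h (ray ω s a)) (hcb : Cr (h + 1) (ray ω s b))
    (h1 : ∀ n, n₀ ≤ n → Cr h (ray ω s n) → e * (ray ω s n).1.1 < 0)
    (h2 : ∀ n, n₀ ≤ n → Cr (h + 1) (ray ω s n) → 0 < e * (ray ω s n).1.1)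
    (h3 : ∀ n, n₀ ≤ n → (ray ω s n).1 ≠ (0, h + 1)) : False := by
  have key : ∀ n, a ≤ n → (ray ω s n).1.2 ≤ h + 1 ∧
      ((ray ω s n).1.2 = h + 1 → e * (ray ω s n).1.1 < 0) := by
    intro n hn
    induction n, hn using Nat.le_induction with
    | base =>
      refine ⟨?_, fun _ => h1 a ha hca⟩
      rcases hca with ⟨_, h⟩ | ⟨_, h⟩ <;> omega
    | succ n hn ih =>
      have hn0 : n₀ ≤ n + 1 := by omega
      obtain ⟨ih1, ih2⟩ := ih
      rcases step4 ω s n with ⟨hd, hx, hy⟩ | ⟨hd, hx, hy⟩ | ⟨hd, hx, hy⟩ | ⟨hd, hx, hy⟩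
      · -- north
        by_cases hh : (ray ω s n).1.2 = h + 1
        · exfalso
          have hc : Cr (h + 1) (ray ω s (n + 1)) := Or.inl ⟨hd, by omega⟩
          have h4 := h2 (n + 1) hn0 hc
          have h5 := ih2 hh
          rw [hx] at h4
          omega
        · refine ⟨by omega, fun h6 => ?_⟩
          exact h1 (n + 1) hn0 (Or.inl ⟨hd, h6⟩)
      · -- south
        refine ⟨by omega, fun h6 => ?_⟩
        omega
      · -- east
        refine ⟨by omega, fun h6 => ?_⟩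
        have h5 := ih2 (by omega)
        have h7 : (ray ω s (n + 1)).1.1 ≠ 0 := fun h8 => h3 (n + 1) hn0 (Prod.ext h8 h6)
        rcases he with rfl | rfl
        · omega
        · omega
      · -- west
        refine ⟨by omega, fun h6 => ?_⟩
        have h5 := ih2 (by omega)
        have h7 : (ray ω s (n + 1)).1.1 ≠ 0 := fun h8 => h3 (n + 1) hn0 (Prod.ext h8 h6)
        rcases he with rfl | rfl
        · omega
        · omega
  obtain ⟨k1, k2⟩ := key b hab
  rcases hcb with ⟨hd, hy⟩ | ⟨hd, hy⟩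
  · omega
  · have h4 := h2 b (by omega) (Or.inr ⟨hd, hy⟩)
    have h5 := k2 hy
    omega

end Adjx

open Adjx

theorem thm_Adj (hB : St_Bas1) : St_Adj := by
  intro ω h s hs hf1 hf2
  obtain ⟨-, -, -, -, -, -, -, -, -, -, -, -, hlast⟩ := hB ω
  have hav : ∀ᶠ n in atTop, (ray ω s n).1 ∉ ({(0, h + 1)} : Finset (ℤ × ℤ)) := hlast s _ hs
  constructor
  · rintro ⟨⟨-, hw⟩, ⟨-, hE⟩⟩
    obtain ⟨n₀, hn₀⟩ := eventually_atTop.1 ((hw 0).and ((hE 0).and hav))
    obtain ⟨a, ha, hca⟩ := frequently_atTop.1 hf1 n₀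
    obtain ⟨b, hb, hcb⟩ := frequently_atTop.1 hf2 a
    refine core ω h s 1 (Or.inl rfl) n₀ a b ha hb hca hcb ?_ ?_ ?_
    · intro n hn hc
      have := (hn₀ n hn).1 hc
      omega
    · intro n hn hc
      have := (hn₀ n hn).2.1 hc
      omega
    · intro n hn h5
      exact (hn₀ n hn).2.2 (by rw [h5]; exact Finset.mem_singleton_self _)
  · rintro ⟨⟨-, hE⟩, ⟨-, hw⟩⟩
    obtain ⟨n₀, hn₀⟩ := eventually_atTop.1 ((hw 0).and ((hE 0).and hav))
    obtain ⟨a, ha, hca⟩ := frequently_atTop.1 hf1 n₀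
    obtain ⟨b, hb, hcb⟩ := frequently_atTop.1 hf2 a
    refine core ω h s (-1) (Or.inr rfl) n₀ a b ha hb hca hcb ?_ ?_ ?_
    · intro n hn hc
      have := (hn₀ n hn).2.1 hc
      omega
    · intro n hn hc
      have := (hn₀ n hn).1 hc
      omega
    · intro n hn h5
      exact (hn₀ n hn).2.2 (by rw [h5]; exact Finset.mem_singleton_self _)

end Pool.Agent.MHF
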