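import Pool.Agent.MHF.St
import Pool.Agent.Mir.Prob

/-!
# MHF, module Al: all horizontal lines
-/

set_option autoImplicit false

open MeasureTheory Filter Mir

noncomputable section

namespace Pool.Agent.MHF

theorem Alx.notnull (hSym : St_Sym) (p : ℝ) (h0 : 0 < p) (h1 : p < 1)
    (hW : ¬ (∀ᵐ ω ∂(mir p), ω ∉ HasW 0)) (h : ℤ) : ¬ (∀ᵐ ω ∂(mir p), ω ∉ HasW h) := by
  intro hn
  apply hW
  have h2 : ∀ᵐ ω ∂(mir p), tr ((0 : ℤ), h) ω ∉ HasW h :=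
    (tr_preserving h0.le h1.le ((0 : ℤ), h)).quasiMeasurePreserving.ae hn
  filter_upwards [h2] with ω hω
  rintro ⟨s, hs⟩
  apply hω
  refine ⟨trS ((0 : ℤ), h) s, ?_⟩
  have h3 := (hSym.1 ((0 : ℤ), h) ω s s 0).2.1
  have h4 : Wt (tr ((0 : ℤ), h) ω) (0 + h) (trS ((0 : ℤ), h) s) := h3.2 hs
  rw [zero_add] at h4
  exact h4

theorem Alx.key (hAdj : St_Adj) (hBas1 : St_Bas1) (ω : Conf)
    (hl : ∀ s : State, Unb ω s → ∀ h : ℤ,
      (∃ᶠ n in atTop, Cr h (ray ω s n)) ∧ (∃ᶠ n in atTop, Cr h (ray (sw ω) (swS s) n)))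
    (h : ℤ) (s t : State) (hs : Uni ω h s) (ht : Uni ω (h + 1) t) :
    Uni ω (h + 1) s ∧ Uni ω h t := by
  obtain ⟨-, -, -, -, -, -, hsymm, htrans, -, hrev, htp, -, -⟩ := hBas1 ω
  obtain ⟨hWs, hEs, hSs⟩ := hs
  obtain ⟨hWt, hEt, hSt⟩ := ht
  rcases hSs t hWt.1 with hts | hts
  · have hrts := hrev t s hts
    have hst := hsymm t s hts
    have hrst := hsymm _ _ hrts
    refine ⟨⟨(htp t s (h + 1) hts).2.1.1 hWt, (htp _ _ (h + 1) hrts).2.2.1 hEt, hSs⟩,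
      ⟨(htp t s h hts).2.1.2 hWs, (htp _ _ h hrts).2.2.2 hEs, ?_⟩⟩
    intro u hu
    rcases hSs u hu with h5 | h5
    · exact Or.inl (htrans _ _ _ h5 hst)
    · exact Or.inr (htrans _ _ _ h5 hrst)
  · exfalso
    have h5 : Wt ω (h + 1) (rev s) := (htp t (rev s) (h + 1) hts).2.1.1 hWt
    exact (hAdj ω h (rev s) hEs.1 (hl _ hEs.1 h).1 (hl _ hEs.1 (h + 1)).1).2 ⟨hEs, h5⟩

theorem thm_Al (hEx2 : St_Ex2) (hAdj : St_Adj) (hLn : St_Ln) (hBas1 : St_Bas1) (hSym : St_Sym) :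
    St_Al := by
  intro p h0 h1 hW
  have hall : ∀ᵐ ω ∂(mir p), ∀ h : ℤ, ∃ s : State, Uni ω h s :=
    ae_all_iff.2 fun h => hEx2 p h0 h1 h (Alx.notnull hSym p h0 h1 hW h)
  filter_upwards [hall, hLn p h0 h1] with ω hω hl
  choose f hf using hω
  refine ⟨f 0, ?_⟩
  intro h
  induction h using Int.induction_on with
  | zero => exact hf 0
  | succ i ih => exact (Alx.key hAdj hBas1 ω hl _ _ _ ih (hf _)).1
  | pred i ih =>
    have h6 : Uni ω (-(i : ℤ) - 1 + 1) (f 0) := by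
      rw [sub_add_cancel]
      exact ih
    exact (Alx.key hAdj hBas1 ω hl _ _ _ (hf _) h6).2

end Pool.Agent.MHF
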