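import Pool.Agent.MHF.Defs

/-!
# Unbounded rays cross every half-line infinitely often: statements of the modules (architect helper98)

Theorem (`St_Fin`): for every `p ∈ (0, 1)`, almost surely every unbounded ray of the mirror model crosses every horizontal
and every vertical lattice half-line infinitely often. Module `X` proves `theorem thm_X (h.. : St_..) : St_X` in
`Pool/Agent/MHF/X.lean`, namespace `Pool.Agent.MHF`, auxiliary lemmas private or in the namespace `Pool.Agent.MHF.Xx`.
Any statement `St_Y` may be taken as a hypothesis as long as there is no cycle (`Bas1`, `Bas2`, `Trs` need nothing).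

Plan. (`Hp`, `Ln`) rays do not stay in half-planes, so unbounded rays cross every line infinitely often, and
(`Bas1`) the columns of the crossings tend to infinity in absolute value. Suppose that with positive probability
some ray is of type W at the line `0`: the columns tend to `-∞`. (`Mt`) By mass transport no path is of type W in both
directions. (`Un`) By a modification in a box there is only one end of type W. (`Ex1`, `Ex2`) By ergodicity, reflection and
modifications there is exactly one unbounded path; one end is of type W, the other one of type E. (`Al`) This holds for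
all horizontal lines with the same ends, and (exchange the coordinates) for all vertical lines. (`Con`) The end of
type W is either of type N or of type S at the vertical lines; both have probability `1/2` by reflection, but the
probability is `0` or `1` by ergodicity.
-/

set_option autoImplicit false

open MeasureTheory Filter Mir

noncomputable section

namespace Pool.Agent.MHF

/-- **Bas1** (2 h). Basic facts.

Proof. (1) If `ray ω s m = ray ω s n`, `m < n`, then `s = ray ω s (n - m)` (`ray_add`, `ray_inj`), the ray is periodic and visits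
finitely many vertices. Conversely, if the ray is injective it has infinitely many states, at most four at each vertex. (2) The ray
from `ray ω s n` is a tail; `ray ω (rev s)`: if it is periodic with period `k`, then `rev s = ray ω (rev s) k`, so `s = ray ω s k` by
`ray_rev ω (rev s) 0 k`. (3) injectivity: every state of `F` is visited at most once. (4) tails. (5) `ray_add`. (6) Let
`u = ray ω s m = ray ω t n`. By `ray_rev` (with `0 + m`) `ray ω (rev u) m = rev s` and `ray ω (rev u) n = rev t`; if `m ≤ n` then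
`ray ω (rev s) (n - m) = rev t`, otherwise exchange. (7) by (4) and (5). (8) The crossings of the line `h` in columns of absolute value
`≤ c` are finitely many states; use (3). (9) (3): a finite set of vertices gives a finite set of states. -/
def St_Bas1 : Prop := ∀ (ω : Conf),
  (∀ s, Unb ω s ↔ Function.Injective (ray ω s)) ∧
  (∀ s n, (Unb ω (ray ω s n) ↔ Unb ω s)) ∧ (∀ s, Unb ω (rev s) ↔ Unb ω s) ∧
  (∀ s (F : Finset State), Unb ω s → ∀ᶠ n in atTop, ray ω s n ∉ F) ∧
  (∀ s n h, (Wt ω h (ray ω s n) ↔ Wt ω h s) ∧ (Et ω h (ray ω s n) ↔ Et ω h s)) ∧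
  (∀ s, SE ω s s) ∧ (∀ s t, SE ω s t → SE ω t s) ∧ (∀ s t u, SE ω s t → SE ω t u → SE ω s u) ∧
  (∀ s n, SE ω s (ray ω s n)) ∧ (∀ s t, SE ω s t → SE ω (rev s) (rev t)) ∧
  (∀ s t h, SE ω s t → (Unb ω s ↔ Unb ω t) ∧ (Wt ω h s ↔ Wt ω h t) ∧ (Et ω h s ↔ Et ω h t)) ∧
  (∀ s h (c : ℤ), Unb ω s → ∀ᶠ n in atTop, Cr h (ray ω s n) → c < |(ray ω s n).1.1|) ∧
  (∀ s (B : Finset (ℤ × ℤ)), Unb ω s → ∀ᶠ n in atTop, (ray ω s n).1 ∉ B)

/-- **Bas2** (1.5 h). Changes in a finite set, last exits.

Proof. (1) `ray_congr` (the rays agree, so all notions which depend only on the ray agree). (2) `Unb ω s`, so the vertices are outside `B`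
for all large times (`St_Bas1`, last clause), and `s.1 ∈ B`. Let `n` be the smallest number such that `(ray ω s m).1 ∉ B` for all `m ≥ n`;
`n ≥ 1` and `(ray ω s (n - 1)).1 ∈ B`. Let `s' = ray ω s n`. `(rev s').1 = s'.1 - vec s'.2 = (ray ω s (n - 1)).1 ∈ B` (`ray_prev`) and
`(rev s').1 - vec (rev s').2 = s'.1 ∉ B`. -/
def St_Bas2 : Prop :=
  (∀ (ω ω' : Conf) (B : Finset (ℤ × ℤ)) (s : State), (∀ v, v ∉ B → ω v = ω' v) →
    (∀ n, (ray ω s n).1 ∉ B) → (∀ n, ray ω' s n = ray ω s n) ∧ (Unb ω' s ↔ Unb ω s) ∧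
      (∀ h, (Wt ω' h s ↔ Wt ω h s) ∧ (Et ω' h s ↔ Et ω h s))) ∧
  (∀ (ω : Conf) (B : Finset (ℤ × ℤ)) (s : State), Unb ω s → s.1 ∈ B →
    ∃ n, (∀ m, (ray ω (ray ω s n) m).1 ∉ B) ∧ Enters (B : Set (ℤ × ℤ)) (rev (ray ω s n)))

/-- **Sym** (2 h). Symmetries. `tr z`: translation by `z`, `trS z s = (s.1 + z, s.2)`; `rf`: reflection `x ↦ -x`; `sw`: exchange of the
coordinates.

Proof. `ray_tr`, `ray_rf`, `ray_sw`; `trS z (rev s) = rev (trS z s)` and the same for `rfS`, `swS`; the maps of the vertices are bijections;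
crossings of the line `h` are mapped to crossings of the line `h + z.2`, by `rf` to crossings of the line `h`, by `sw` they are exchanged
with crossings of vertical lines; the last clause is for the reflection `y ↦ -y`, which maps the line `h` to the line `-h - 1`, and
`sw (sw (rf (sw ω))) = rf (sw ω)`. -/
def St_Sym : Prop :=
  (∀ (z : ℤ × ℤ) (ω : Conf) (s t : State) (h : ℤ), (Unb (tr z ω) (trS z s) ↔ Unb ω s) ∧
    (Wt (tr z ω) (h + z.2) (trS z s) ↔ Wt ω h s) ∧ (Et (tr z ω) (h + z.2) (trS z s) ↔ Et ω h s) ∧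
    (SE (tr z ω) (trS z s) (trS z t) ↔ SE ω s t)) ∧
  (∀ (ω : Conf) (s t : State) (h : ℤ), (Unb (rf ω) (rfS s) ↔ Unb ω s) ∧
    (Wt (rf ω) h (rfS s) ↔ Et ω h s) ∧ (Et (rf ω) h (rfS s) ↔ Wt ω h s) ∧
    (SE (rf ω) (rfS s) (rfS t) ↔ SE ω s t)) ∧
  (∀ (ω : Conf) (s t : State), (Unb (sw ω) (swS s) ↔ Unb ω s) ∧
    (SE (sw ω) (swS s) (swS t) ↔ SE ω s t)) ∧
  (∀ (z : ℤ × ℤ) (s : State), trS z (rev s) = rev (trS z s)) ∧
  (∀ s : State, rfS (rev s) = rev (rfS s) ∧ swS (rev s) = rev (swS s)) ∧
  (∀ (h : ℤ) (s : State), Cr h (swS s) ↔ Cv h s) ∧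
  (∀ (ω : Conf) (s : State) (h : ℤ),
    (Wt (sw (rf (sw ω))) (-h - 1) (swS (rfS (swS s))) ↔ Wt ω h s) ∧
    (Wt (sw (sw (rf (sw ω)))) h (swS (swS (rfS (swS s)))) ↔ Et (sw ω) h (swS s)) ∧
    (Et (sw (sw (rf (sw ω)))) h (swS (swS (rfS (swS s)))) ↔ Wt (sw ω) h (swS s)))

/-- **Msb** (1.5 h). Measurability.

Proof. `Unb ω s` iff `ray ω s m ≠ ray ω s n` for all `m < n` (`St_Bas1`): `{ω | ray ω s m = ray ω s n} = ⋃ t, {ray ω s m = t} ∩ {ray ω s n = t}`
(`meas_ray`, `countable_state`). `∀ c, ∃ n₀, ∀ n ≥ n₀, ..` with `meas_ray_prop`. `SE`: countable union. -/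
def St_Msb : Prop :=
  (∀ s, MeasurableSet {ω : Conf | Unb ω s}) ∧ (∀ h s, MeasurableSet {ω : Conf | Wt ω h s}) ∧
  (∀ h s, MeasurableSet {ω : Conf | Et ω h s}) ∧ (∀ s t, MeasurableSet {ω : Conf | SE ω s t})

/-- **Hp** (2 h). No ray stays in a half-plane; from `MSB.St_Qn`.

Proof. Countably many `s`, so let `s` be fixed, `A = s.2 ≠ S`, `v = s.1 - vec s.2`. Let `B = {ω | ∀ n, v.2 ≤ height of ray ω (v, N) n}`. By translation
by `(0, 1) - v` (`tr_preserving`, `ray_tr`) `P(B) = P(∀ n, 1 ≤ height of ray ω s0 n) ≤ q p n` for all `n`, so `P(B) = 0` by `MSB.St_Qn`. Let `ω` satisfy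
`v.2 ≤ (ray ω s n).1.2` and `(ray ω s n).1 ≠ v` for all `n`. By `exists_turn` there is `a` with `turn a N = A` (`A ≠ N.opp = S`); let
`ω' = Function.update ω v a`. Then `ray ω' (v, N) 1 = (v + vec A, A) = s` and `ray ω' s n = ray ω s n` (`ray_congr`, the ray does not visit `v`), so
`ω' ∈ B`. `B` is measurable, so by `resample` `wm p * P(∃ a, update ω v a ∈ B) ≤ P(B) = 0`, `wm p > 0`. -/
def St_Hp : Prop := ∀ p : ℝ, 0 < p → p < 1 → ∀ᵐ ω ∂(mir p), ∀ s : State, s.2 ≠ Dir.S →
  ¬ ∀ n, (s.1 - vec s.2).2 ≤ (ray ω s n).1.2 ∧ (ray ω s n).1 ≠ s.1 - vec s.2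

/-- **Ln** (2 h). Unbounded rays cross every horizontal and every vertical line infinitely often; from `St_Hp`, `St_Bas1`, `St_Sym`.

Proof. Let `ω` be in the event of `St_Hp`, `s` unbounded, `h` a line. Suppose that the ray does not cross the line `h` at the times `n ≥ n₀`. Then
all heights at times `n ≥ n₀` are `≥ h + 1`, or all are `≤ h` (a step changes the height by at most `1`, and a step from a height `≤ h` to a height
`≥ h + 1` is a crossing in the direction `N`). First case: let `m` be the smallest height at the times `n ≥ n₀`, attained at the vertex `v`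
at a time `≥ n₀`, and let `n₂` be the last time at which the ray is at `v` (`St_Bas1`, last clause). Let `s' = ray ω s (n₂ + 1)`: `s'.1 - vec s'.2 = v`,
`s'.2 ≠ S` (the height at time `n₂ + 1` is `≥ m`), and the ray from `s'` has heights `≥ m = v.2` and does not visit `v`: contradiction to `St_Hp`. Second
case: the first case for the reflected configuration `sw (rf (sw ω))`, which is in the event of `St_Hp` for almost all `ω`. Vertical lines: apply this
to `sw ω`. -/
def St_Ln : Prop := ∀ p : ℝ, 0 < p → p < 1 → ∀ᵐ ω ∂(mir p), ∀ s : State, Unb ω s → ∀ h : ℤ,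
  (∃ᶠ n in atTop, Cr h (ray ω s n)) ∧ (∃ᶠ n in atTop, Cr h (ray (sw ω) (swS s) n))

/-- **Orb** (1.5 h). Paths.

Proof. (1) `ray ω s n = (stepE ω ^ n) s`. (2) `SameCycle` is an equivalence relation (`Equiv.Perm.SameCycle.refl`, `.symm`, `.trans`) and
`SameCycle s t` implies `SameCycle (rev s) (rev t)` (`rev ∘ step ω ∘ rev` is the inverse of `step ω`); `rev_rev`. (3) For `k ≥ 0` `(stepE ω ^ k) s = ray ω s k`,
for `k = -n` it is `rev (ray ω (rev s) n)`; so `t` or `rev t` is of the form `ray ω s n`, `rev (ray ω s n)`, `ray ω (rev s) n` or `rev (ray ω (rev s) n)`.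
(4) by (3) and `St_Bas1`: the two ends of the path of `t` are those of the path of `s`. (5) `ray_tr`. -/
def St_Orb : Prop := (∀ (ω : Conf) (s : State) (n : ℕ), ray ω s n = (stepE ω ^ n) s) ∧
  (∀ (ω : Conf), (∀ s, SP ω s s) ∧ (∀ s t, SP ω s t → SP ω t s) ∧
    (∀ s t u, SP ω s t → SP ω t u → SP ω s u)) ∧
  (∀ (ω : Conf) (s t : State), SP ω s t ↔ ∃ n, ray ω s n = t ∨ ray ω s n = rev t ∨
    ray ω (rev s) n = t ∨ ray ω (rev s) n = rev t) ∧
  (∀ (ω : Conf) (s t : State) (h : ℤ), SP ω s t →
    ((Wt ω h s ∧ Wt ω h (rev s)) ↔ (Wt ω h t ∧ Wt ω h (rev t)))) ∧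
  (∀ (z : ℤ × ℤ) (ω : Conf) (s t : State), SP (tr z ω) (trS z s) (trS z t) ↔ SP ω s t)

/-- **Mt** (2.5 h). Mass transport: no path is of type W in both directions; from `St_Ln`, `St_Bas1`, `St_Sym`, `St_Msb`, `St_Orb`.

Proof. Let `e x = ((x, h + 1), N)`. `Good x`: `Wt ω h (e x) ∧ Wt ω h (rev (e x))`. `Top x`: `Good x` and `x' ≤ x` for all `x'` with `SP ω (e x) (e x')`.
Mass transport `m x y = 1` if `Good x`, `Top y` and `SP ω (e x) (e y)`. (a) For every `x` there is at most one `y` with `m x y = 1` (`SP` is an equivalence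
relation, two such `y` bound each other). (b) If `Top y`, there are infinitely many `x` with `m x y = 1`: the ray from `e y` crosses the line `h` infinitely often
(`St_Ln`), at states `e x` or `rev (e x)`, each state is visited once, and `Good x` by `St_Orb` (4). (c) `P(m x y = 1)` depends only on `x - y`
(`tr_preserving`, `St_Sym`, `St_Orb` (5)). So for every `K`: `K P(Top 0) ≤ ∑_x P(m x 0 = 1) = ∑_y P(m 0 y = 1) ≤ 1` (in `ℝ≥0∞`: `∑_x P(m x 0) = ∫ #{x | m x 0}`, which is
`∞` on `Top 0`), hence `P(Top 0) = 0`, and `P(Top x) = 0` for all `x`. If `s` satisfies `Wt ω h s` and `Wt ω h (rev s)`, the ray crosses the line `h` at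
some `e x` or `rev (e x)`, so `Good x`; the columns of the crossings of this path are bounded above (`Wt` in both directions, and (3) of `St_Orb`), let `y` be the
largest one: `Top y`. -/
def St_Mt : Prop := ∀ p : ℝ, 0 < p → p < 1 → ∀ h : ℤ, ∀ᵐ ω ∂(mir p),
  ¬ ∃ s : State, Wt ω h s ∧ Wt ω h (rev s)

/-- **Fe** (1.5 h). Finite energy.

Proof. Induction on `B`. `B = ∅`: `ov ∅ η ω = ω`. For `insert v B`, `v ∉ B`: `ov (insert v B) η ω = ov B η (Function.update ω v (η v))`. By induction
`Y = {ω | ∃ η, ov B η ω ∈ X}` is null; let `Z ⊇ Y` be a measurable null set (`toMeasurable`). By `resample`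
`wm p * P(∃ a, update ω v a ∈ Z) ≤ P(Z) = 0`. -/
def St_Fe : Prop := ∀ p : ℝ, 0 < p → p < 1 → ∀ (B : Finset (ℤ × ℤ)) (X : Set Conf),
  (∀ᵐ ω ∂(mir p), ω ∉ X) → ∀ᵐ ω ∂(mir p), ∀ η : Conf, ov B η ω ∉ X

/-- **Jn** (2.5 h). Two boundary edges of a square can be joined inside.

Proof. Let `v_0 = s.1, v_1, .., v_m = t.1` be a path of nearest neighbours with distinct vertices in `sq N` (first horizontal, then vertical). Let `d_0 = s.2`,
`d_i` the direction from `v_(i-1)` to `v_i`, `d_(m+1) = t.2.opp`. `d_(i+1) ≠ d_i.opp` for `0 ≤ i ≤ m`: for `i = 0 < m` because `v_0 + vec d_0.opp = s.1 - vec s.2` is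
not in the square; for `0 < i < m` because `v_(i+1) ≠ v_(i-1)`; for `i = m > 0` because `t.1 - vec t.2` is not in the square, but `v_m - vec d_m = v_(m-1)` is; for
`m = 0` because `s.1 = t.1`, `s ≠ t`, so `s.2 ≠ t.2`. By `exists_turn` choose `η (v_i)` with `turn (η v_i) d_i = d_(i+1)`. The ray from `s` in the configuration
`ov (sq N) η ω` is at `(v_i, d_i)` at time `i ≤ m` and at `(v_m + vec d_(m+1), d_(m+1)) = rev t` at time `m + 1`. (An induction is also possible: on the length of the
path, or: first move horizontally, then vertically.) -/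
def St_Jn : Prop := ∀ (N : ℕ) (s t : State), Enters (sq N : Set (ℤ × ℤ)) s →
  Enters (sq N : Set (ℤ × ℤ)) t → s ≠ t → ∃ η : Conf, ∀ ω : Conf,
    ∃ k, ray (ov (sq N) η ω) s k = rev t

/-- **Rej** (1 h). Rejoining two ends; deterministic, from `St_Bas1`, `St_Bas2`, `St_Jn`.

Proof. Let `s' = ray ω s n`, `t' = ray ω t n'` be the last exits from `sq N` (`St_Bas2`). `s' ≠ t'`, otherwise `SE ω s t`. `St_Jn` for `rev s'`, `rev t'`: `η` with
`ray ω' (rev s') k = t'`, `ω' = ov (sq N) η ω`. The rays of `s'` and of `t'` are the same for `ω` and `ω'`. The types of `s'` in `ω` are those of `s`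
(`St_Bas1`), and the types of `rev s'` in `ω'` are those of `t'` (tail). -/
def St_Rej : Prop := ∀ (ω : Conf) (N : ℕ) (s t : State), Unb ω s → Unb ω t → ¬ SE ω s t →
  s.1 ∈ sq N → t.1 ∈ sq N → ∃ (η : Conf) (s' : State),
    (∀ h, (Wt (ov (sq N) η ω) h s' ↔ Wt ω h s) ∧ (Et (ov (sq N) η ω) h s' ↔ Et ω h s) ∧
      (Wt (ov (sq N) η ω) h (rev s') ↔ Wt ω h t) ∧ (Et (ov (sq N) η ω) h (rev s') ↔ Et ω h t))

/-- **Un** (1 h). There is at most one end of type W, and at most one of type E; from `St_Mt`, `St_Fe`, `St_Rej`, `St_Sym`.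

Proof. W: `X = {ω | ∃ s, Wt ω h s ∧ Wt ω h (rev s)}` is null (`St_Mt`), so by `St_Fe` almost surely `ov (sq N) η ω ∉ X` for all `N`, `η`. If `Wt ω h s`, `Wt ω h t` and not
`SE ω s t`, take `N` with `s.1, t.1 ∈ sq N`; `St_Rej` gives `η` with `ov (sq N) η ω ∈ X`. E: reflection (`rf_preserving`, `St_Sym`). -/
def St_Un : Prop := ∀ p : ℝ, 0 < p → p < 1 → ∀ h : ℤ, ∀ᵐ ω ∂(mir p), ∀ s t : State,
  (Wt ω h s → Wt ω h t → SE ω s t) ∧ (Et ω h s → Et ω h t → SE ω s t)

/-- **Erg** (2 h). Ergodicity of the horizontal translation.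

Proof. `P = mir p` is a product measure. Let `ε > 0`. There is a measurable `A` which depends only on the vertices of a finite set `B` with `P(X Δ A) < ε`
(the cylinders are an algebra which generates the sigma-algebra: `Measure.MeasureDense.of_generateFrom_isSetAlgebra_finite`, `measurableCylinders`,
`generateFrom_measurableCylinders`, or `exists_measurable_..` of your choice). Take `n` such that `B` and `B + (n, 0)` are disjoint. With `A' = (tr (n, 0))⁻¹ A`
(depends on a translate of `B`): `P(A ∩ A') = P(A) ^ 2` (`indep_mul_real`, `tr_preserving`), and `P(X Δ A') = P(X Δ A) < ε` as `X` is invariant. So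
`|P(X) - P(A) ^ 2| ≤ 2 ε` and `|P(X) - P(A)| ≤ ε`, and `P(X) = P(X) ^ 2` as `ε → 0`. -/
def St_Erg : Prop := ∀ p : ℝ, 0 ≤ p → p ≤ 1 → ∀ X : Set Conf, MeasurableSet X →
  (∀ ω, tr (1, 0) ω ∈ X ↔ ω ∈ X) → (∀ᵐ ω ∂(mir p), ω ∈ X) ∨ (∀ᵐ ω ∂(mir p), ω ∉ X)

/-- **Ex1** (1.5 h). From `St_Erg`, `St_Msb`, `St_Sym`, `St_Ln`, `St_Fe`, `St_Rej`.

Proof. The event `HasW h` is measurable and invariant, not null, so it has probability `1` (`St_Erg`). By reflection (`rf`) almost surely there is a ray of type E too. Let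
`X = {ω | ∃ s, Wt ω h s ∧ Et ω h (rev s)}`, measurable and invariant. Suppose that it is null. By `St_Fe` almost surely `ov (sq N) η ω ∉ X` for all `N`, `η`. Take such an `ω`
(also in the event of `St_Ln`) with `Wt ω h s`, `Et ω h t`. Not `SE ω s t`: otherwise `Wt` and `Et` hold for `s` and the ray crosses the line `h` only finitely often, against
`St_Ln`. `St_Rej` gives a contradiction. So `X` has probability `1` by `St_Erg`. -/
def St_Ex1 : Prop := ∀ p : ℝ, 0 < p → p < 1 → ∀ h : ℤ, ¬ (∀ᵐ ω ∂(mir p), ω ∉ HasW h) →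
  ∀ᵐ ω ∂(mir p), ∃ s : State, Wt ω h s ∧ Et ω h (rev s)

/-- **Ex2** (1.5 h). Exactly one unbounded path; from `St_Ex1`, `St_Un`, `St_Fe`, `St_Rej`, `St_Bas1`, `St_Ln`.

Proof. Let `Y` be the set of the `ω` for which the conclusion of `St_Ex1` or of `St_Un` (for this `h`) fails: null. By `St_Fe` almost surely `ov (sq N) η ω ∉ Y` for all `N`, `η`; also
`ω ∉ Y`. Let `Wt ω h s`, `Et ω h (rev s)` and suppose that `t` is unbounded, not `SE ω t s`, not `SE ω t (rev s)`. Take `N` with `s.1, t.1 ∈ sq N`. `St_Rej` for `s`, `t`: `η`, `s'`,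
`ω' = ov (sq N) η ω` with `Wt ω' h s'`, and `Et ω' h (rev s') ↔ Et ω h t`. In `ω'` there is `u` with `Wt ω' h u`, `Et ω' h (rev u)`; `SE ω' u s'` (`St_Un`), so
`SE ω' (rev u) (rev s')` and `Et ω' h (rev s')` (`St_Bas1`). So `Et ω h t`, and `Et ω h (rev s)`: `SE ω t (rev s)` by `St_Un`, contradiction. -/
def St_Ex2 : Prop := ∀ p : ℝ, 0 < p → p < 1 → ∀ h : ℤ, ¬ (∀ᵐ ω ∂(mir p), ω ∉ HasW h) →
  ∀ᵐ ω ∂(mir p), ∃ s : State, Uni ω h s

/-- **Adj** (2.5 h). Neighbouring lines; deterministic, from `St_Bas1`.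

Proof. Suppose that the crossings of the line `h` go to one side and those of the line `h + 1` to the other one, both infinitely often. Let `n₀` be so large that
for `n ≥ n₀` crossings of the line `h` are in columns `< 0` and crossings of the line `h + 1` in columns `> 0` (or vice versa), and that the vertex `(0, h + 1)` is not visited
at times `≥ n₀` (`St_Bas1`, last clause). There is a crossing of the line `h` at a time `≥ n₀`; let `m` be the first later time at which the line `h + 1` is crossed, and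
`n' < m` the last time before `m` at which the line `h` is crossed. Between `n'` and `m` no line `h`, `h + 1` is crossed, so at the times `n' ≤ i < m` the ray is in the row
`h + 1` (at time `n'` it is in the row `h` or `h + 1`; in the row `h` it could not reach the line `h + 1` without crossing the line `h`), and the column changes by at most `1` in each
step. The column at time `n'` is `< 0`, and at time `m - 1` it is that of time `m` (the step crosses the line `h + 1` vertically), `> 0`. So the ray visits `(0, h + 1)` in between: contradiction. -/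
def St_Adj : Prop := ∀ (ω : Conf) (h : ℤ) (s : State), Unb ω s →
  (∃ᶠ n in atTop, Cr h (ray ω s n)) → (∃ᶠ n in atTop, Cr (h + 1) (ray ω s n)) →
  ¬ (Wt ω h s ∧ Et ω (h + 1) s) ∧ ¬ (Et ω h s ∧ Wt ω (h + 1) s)

/-- **Al** (1.5 h). All horizontal lines; from `St_Ex2`, `St_Adj`, `St_Ln`, `St_Bas1`, `St_Sym`.

Proof. By vertical translation (`tr_preserving`, `St_Sym`) `HasW h` is not null for every `h`, so almost surely for every `h` there is `s h` with `Uni ω h (s h)`
(`St_Ex2`). `Uni ω h (s 0)` for all `h`: by induction upwards and downwards it is enough that `Uni ω h s`, `Uni ω (h + 1) t` imply `Uni ω (h + 1) s` and `Uni ω h t`. `t` is unbounded, so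
`SE ω t s` or `SE ω t (rev s)`. In the second case `Et ω h (rev s)`, and `Wt ω (h + 1) t` gives `Wt ω (h + 1) (rev s)`; `rev s` is unbounded and crosses both lines infinitely often
(`St_Ln`), against `St_Adj`. In the first case all clauses are transported by `SE` (`St_Bas1`; `SE ω (rev t) (rev s)`). -/
def St_Al : Prop := ∀ p : ℝ, 0 < p → p < 1 → ¬ (∀ᵐ ω ∂(mir p), ω ∉ HasW 0) →
  ∀ᵐ ω ∂(mir p), ∃ s : State, ∀ h : ℤ, Uni ω h s

/-- **Con** (2 h). The contradiction; from `St_Al`, `St_Un`, `St_Ln`, `St_Erg`, `St_Msb`, `St_Sym`, `St_Bas1`.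

Proof. Suppose not. By `St_Al` almost surely there is `s` with `Uni ω h s` for all `h`, and (apply it to `sw ω`, `sw_preserving`) `t` with `Uni (sw ω) c (swS t)` for all `c`. By the last
clause of `Uni`, `SE ω t s` or `SE ω t (rev s)`. Let
`Q1 = {ω | ∃ s, (∀ h, Wt ω h s) ∧ ∀ c, Et (sw ω) c (swS s)}`, `Q2 = {ω | ∃ s, (∀ h, Wt ω h s) ∧ ∀ c, Wt (sw ω) c (swS s)}`. If `SE ω t s` then `ω ∈ Q2` (with `s`: `Wt (sw ω) c (swS t)`, and
`SE (sw ω) (swS t) (swS s)`). If `SE ω t (rev s)` then `SE ω (rev t) s` and `Et (sw ω) c (swS (rev t))`, so `ω ∈ Q1`. Almost surely not both: `s1`, `s2` as in `Q1`, `Q2` satisfy `SE ω s1 s2`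
(`St_Un`, `h = 0`), so `swS s1` would be of both types for `sw ω`, against `St_Ln`. So `P(Q1) + P(Q2) = 1`. The reflection `ω ↦ sw (rf (sw ω))` preserves `P` and maps `Q1` to `Q2`
(last clause of `St_Sym`), so `P(Q1) = 1/2`. `Q1` is measurable and invariant under `tr (1, 0)` (`sw (tr (1, 0) ω) = tr (0, 1) (sw ω)`, the `c` are shifted), against `St_Erg`. -/
def St_Con : Prop := ∀ p : ℝ, 0 < p → p < 1 → ∀ᵐ ω ∂(mir p), ω ∉ HasW 0

/-- **Fin** (1.5 h). The theorem; from `St_Con`, `St_Bas1`, `St_Sym`, `St_Ln`.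

Proof. By translation almost surely no ray is of type W at any line `h`, by reflection none is of type E, and the same holds for `sw ω`. Let `s` be unbounded, `h`, `c`. As `Wt ω h s` fails there is
`c₀` such that infinitely often the ray crosses the line `h` in a column `≥ c₀`; by `St_Bas1` (8) only finitely many crossings are in the columns between `c₀` and `c`, so infinitely
many are in columns `≥ c`. The same with `Et`, and for `sw ω` (`Cr h (swS s) ↔ Cv h s`, `ray_sw`). -/
def St_Fin : Prop := ∀ p : ℝ, 0 < p → p < 1 → ∀ᵐ ω ∂(mir p), ∀ s : State, Unb ω s → ∀ h c : ℤ,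
  (∃ᶠ n in atTop, Cr h (ray ω s n) ∧ c ≤ (ray ω s n).1.1) ∧
  (∃ᶠ n in atTop, Cr h (ray ω s n) ∧ (ray ω s n).1.1 ≤ c) ∧
  (∃ᶠ n in atTop, Cv h (ray ω s n) ∧ c ≤ (ray ω s n).1.2) ∧
  (∃ᶠ n in atTop, Cv h (ray ω s n) ∧ (ray ω s n).1.2 ≤ c)

end Pool.Agent.MHF
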