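import Mathlib
import Pool.Agent.MHF.St
import Pool.Agent.Mir.Det

/-!
# MHF, Bas1: basic facts on unbounded rays
-/

set_option autoImplicit false

open MeasureTheory Filter Mir

noncomputable section

namespace Pool.Agent.MHF

namespace Bas1x

theorem not_inj {ω : Conf} {s : State} (h : ¬ Function.Injective (ray ω s)) :
    ∃ k, 0 < k ∧ ray ω s k = s := by
  have h1 : ∃ m n, m < n ∧ ray ω s m = ray ω s n := by
    by_contra hcon
    push Not at hcon
    apply h
    intro a b hab
    rcases lt_trichotomy a b with h2 | h2 | h2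
    · exact absurd hab (hcon a b h2)
    · exact h2
    · exact absurd hab.symm (hcon b a h2)
  obtain ⟨m, n, hmn, he⟩ := h1
  refine ⟨n - m, by omega, ?_⟩
  have h2 : ray ω s n = ray ω (ray ω s (n - m)) m := by
    rw [← ray_add]
    congr 1
    omega
  rw [h2] at he
  exact (ray_inj ω m he).symm

theorem unb_iff (ω : Conf) (s : State) : Unb ω s ↔ Function.Injective (ray ω s) := by
  constructor
  · intro hU
    by_contra hcon
    obtain ⟨k, hk, hp⟩ := not_inj hcon
    have hper : Function.IsPeriodicPt (step ω) k s := hp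
    apply hU
    have hsub : {v | ∃ n, (ray ω s n).1 = v} ⊆
        ((Finset.range k).image fun n => (ray ω s n).1 : Finset (ℤ × ℤ)) := by
      rintro v ⟨n, rfl⟩
      simp only [Finset.coe_image, Set.mem_image, Finset.coe_range, Set.mem_Iio]
      refine ⟨n % k, Nat.mod_lt _ hk, ?_⟩
      have h2 : (step ω)^[n % k] s = (step ω)^[n] s := hper.iterate_mod_apply n
      show ((step ω)^[n % k] s).1 = ((step ω)^[n] s).1
      rw [h2]
    exact (Finset.finite_toSet _).subset hsub
  · intro hinj hfin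
    have h1 : (Set.range (ray ω s)).Infinite := Set.infinite_range_of_injective hinj
    apply h1
    have h2 : ({v | ∃ n, (ray ω s n).1 = v} ×ˢ (Set.univ : Set Dir)).Finite :=
      hfin.prod Set.finite_univ
    refine h2.subset ?_
    rintro t ⟨n, rfl⟩
    exact ⟨⟨n, rfl⟩, Set.mem_univ _⟩

theorem unb_ray (ω : Conf) (s : State) (n : ℕ) : Unb ω (ray ω s n) ↔ Unb ω s := by
  rw [unb_iff, unb_iff]
  constructor
  · intro h i j hij
    apply h
    rw [← ray_add, ← ray_add, add_comm n i, add_comm n j, ray_add, ray_add, hij]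
  · intro h i j hij
    rw [← ray_add, ← ray_add] at hij
    have := h hij
    omega

theorem unb_rev_aux (ω : Conf) (s : State) (h : Unb ω (rev s)) : Unb ω s := by
  rw [unb_iff] at h ⊢
  by_contra hcon
  obtain ⟨k, hk, hp⟩ := not_inj hcon
  have h1 := ray_rev ω s 0 k
  rw [zero_add, hp] at h1
  have h2 : ray ω (rev s) k = ray ω (rev s) 0 := h1
  have := h h2
  omega

theorem unb_rev (ω : Conf) (s : State) : Unb ω (rev s) ↔ Unb ω s := by
  constructor
  · exact unb_rev_aux ω s
  · intro h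
    apply unb_rev_aux
    rw [rev_rev]
    exact h

theorem ev_ray (ω : Conf) (s : State) (n : ℕ) (P : State → Prop) :
    (∀ᶠ m in atTop, P (ray ω (ray ω s n) m)) ↔ ∀ᶠ m in atTop, P (ray ω s m) := by
  have h1 : (∀ᶠ m in atTop, P (ray ω s m)) ↔ ∀ᶠ m in atTop, P (ray ω s (m + n)) := by
    conv_lhs => rw [← map_add_atTop_eq_nat n]
    rw [eventually_map]
  rw [h1]
  refine eventually_congr (Eventually.of_forall fun m => ?_)
  rw [← ray_add, add_comm n m]

theorem ev_notMem (ω : Conf) (s : State) (F : Finset State) (h : Unb ω s) :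
    ∀ᶠ n in atTop, ray ω s n ∉ F := by
  rw [unb_iff] at h
  have h1 : Tendsto (ray ω s) atTop cofinite := by
    rw [← Nat.cofinite_eq_atTop]
    exact h.tendsto_cofinite
  have h2 : ∀ᶠ t in (cofinite : Filter State), t ∉ (F : Set State) :=
    F.finite_toSet.eventually_cofinite_notMem
  exact (h1.eventually h2).mono fun n hn => by simpa using hn

theorem wt_ray (ω : Conf) (s : State) (n : ℕ) (h : ℤ) : Wt ω h (ray ω s n) ↔ Wt ω h s := by
  unfold Wt
  rw [unb_ray]
  refine and_congr_right fun _ => forall_congr' fun c => ?_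
  exact ev_ray ω s n fun t => Cr h t → t.1.1 < c

theorem et_ray (ω : Conf) (s : State) (n : ℕ) (h : ℤ) : Et ω h (ray ω s n) ↔ Et ω h s := by
  unfold Et
  rw [unb_ray]
  refine and_congr_right fun _ => forall_congr' fun c => ?_
  exact ev_ray ω s n fun t => Cr h t → c < t.1.1

theorem se_symm {ω : Conf} {s t : State} (h : SE ω s t) : SE ω t s := by
  obtain ⟨m, n, h⟩ := h
  exact ⟨n, m, h.symm⟩

theorem se_rev_aux {ω : Conf} {s t : State} {m n : ℕ} (hmn : m ≤ n)
    (h : ray ω s m = ray ω t n) : SE ω (rev s) (rev t) := by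
  have h1 := ray_rev ω s 0 m
  have h2 := ray_rev ω t 0 n
  rw [zero_add, ray_zero] at h1 h2
  refine ⟨n - m, 0, ?_⟩
  rw [ray_zero, ← h2, ← h1, h, ← ray_add]
  congr 1
  omega

theorem se_rev {ω : Conf} {s t : State} (h : SE ω s t) : SE ω (rev s) (rev t) := by
  obtain ⟨m, n, h⟩ := h
  rcases le_total m n with h1 | h1
  · exact se_rev_aux h1 h
  · exact se_symm (se_rev_aux h1 h.symm)

end Bas1x

open Bas1x

theorem thm_Bas1 : St_Bas1 := by
  intro ω
  refine ⟨unb_iff ω, unb_ray ω, unb_rev ω, fun s F h => ev_notMem ω s F h,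
    fun s n h => ⟨wt_ray ω s n h, et_ray ω s n h⟩, fun s => ⟨0, 0, rfl⟩,
    fun s t h => se_symm h, ?_, fun s n => ⟨n, 0, rfl⟩, fun s t h => se_rev h, ?_, ?_, ?_⟩
  · rintro s t u ⟨m, n, h1⟩ ⟨m', n', h2⟩
    refine ⟨m + m', n' + n, ?_⟩
    rw [ray_add, h1, ← ray_add, add_comm n m', ray_add, h2, ← ray_add]
  · rintro s t h ⟨m, n, h1⟩
    refine ⟨?_, ?_, ?_⟩
    · rw [← unb_ray ω s m, h1, unb_ray]
    · rw [← wt_ray ω s m, h1, wt_ray]
    · rw [← et_ray ω s m, h1, et_ray]
  · intro s h c hs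
    have h1 := ev_notMem ω s ((Finset.Icc (-c) c ×ˢ ({h, h + 1} : Finset ℤ)) ×ˢ
      (Finset.univ : Finset Dir)) hs
    refine h1.mono fun n hn hC => ?_
    by_contra hcon
    apply hn
    rw [Finset.mem_product, Finset.mem_product]
    refine ⟨⟨?_, ?_⟩, Finset.mem_univ _⟩
    · rw [Finset.mem_Icc]
      exact abs_le.1 (not_lt.1 hcon)
    · rcases hC with ⟨_, h2⟩ | ⟨_, h2⟩
      · rw [h2]; simp
      · rw [h2]; simp
  · intro s B hs
    have h1 := ev_notMem ω s (B ×ˢ (Finset.univ : Finset Dir)) hs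
    refine h1.mono fun n hn hB => hn ?_
    rw [Finset.mem_product]
    exact ⟨hB, Finset.mem_univ _⟩

end Pool.Agent.MHF
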