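import Pool.Agent.MHF.St
import Pool.Agent.Mir.Det

/-!
# Changes in a finite set, last exits
-/

set_option autoImplicit false

open MeasureTheory Filter Mir

noncomputable section

namespace Pool.Agent.MHF

theorem thm_Bas2 (h1 : St_Bas1) : St_Bas2 := by
  constructor
  · intro ω ω' B s hB hs
    have hray : ∀ n, ray ω' s n = ray ω s n := by
      intro n
      exact ray_congr (ω := ω) (ω' := ω') (s := s) (n := n) (fun i _ => hB _ (hs i)) n le_rfl
    have hU : Unb ω' s ↔ Unb ω s := by
      unfold Unb
      simp only [hray]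
    refine ⟨hray, hU, ?_⟩
    intro h
    constructor
    · unfold Wt
      simp only [hray, hU]
    · unfold Et
      simp only [hray, hU]
  · intro ω B s hU hs
    obtain ⟨-, -, -, -, -, -, -, -, -, -, -, -, hlast⟩ := h1 ω
    obtain ⟨N, hN⟩ := eventually_atTop.1 (hlast s B hU)
    classical
    have hex : ∃ n, ∀ m, n ≤ m → (ray ω s m).1 ∉ B := ⟨N, fun m hm => hN m hm⟩
    set n := Nat.find hex with hn
    have hspec : ∀ m, n ≤ m → (ray ω s m).1 ∉ B := Nat.find_spec hex
    have hpos : 0 < n := by
      rcases Nat.eq_zero_or_pos n with h0 | h0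
      · exfalso
        exact hspec 0 (by omega) (by rw [ray_zero]; exact hs)
      · exact h0
    have hmin : (ray ω s (n - 1)).1 ∈ B := by
      by_contra hc
      have h2 : ∀ m, n - 1 ≤ m → (ray ω s m).1 ∉ B := by
        intro m hm
        rcases Nat.lt_or_ge m n with h3 | h3
        · have h4 : m = n - 1 := by omega
          rw [h4]
          exact hc
        · exact hspec m h3
      have h3 := Nat.find_min' hex h2
      omega
    refine ⟨n, ?_, ?_, ?_⟩
    · intro m
      rw [← ray_add]
      exact hspec _ (by omega)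
    · show (ray ω s n).1 - vec (ray ω s n).2 ∈ (B : Set (ℤ × ℤ))
      obtain ⟨k, hk⟩ : ∃ k, n = k + 1 := ⟨n - 1, by omega⟩
      rw [hk, ray_prev]
      rw [hk] at hmin
      exact hmin
    · show (rev (rev (ray ω s n))).1 ∉ (B : Set (ℤ × ℤ))
      rw [rev_rev]
      exact hspec n le_rfl

end Pool.Agent.MHF
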