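import Pool.Agent.MHF.St

/-!
# Module Con of the half-line theorem of the mirror model: the contradiction
-/

set_option autoImplicit false

open MeasureTheory Filter Mir

noncomputable section

namespace Pool.Agent.MHF

namespace Conx

/-- the path of `s` is of type W at all horizontal lines and of type E at all vertical lines -/
def A1 (ω : Conf) (s : State) : Prop := (∀ h, Wt ω h s) ∧ ∀ c, Et (sw ω) c (swS s)

/-- the path of `s` is of type W at all horizontal lines and at all vertical lines -/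
def A2 (ω : Conf) (s : State) : Prop := (∀ h, Wt ω h s) ∧ ∀ c, Wt (sw ω) c (swS s)

def Q1 : Set Conf := {ω | ∃ s, A1 ω s}

def Q2 : Set Conf := {ω | ∃ s, A2 ω s}

/-- reflection of the vertical coordinate -/
def Rv (ω : Conf) : Conf := sw (rf (sw ω))

theorem Con_meas (hM : St_Msb) {p : ℝ} (h0 : 0 ≤ p) (h1 : p ≤ 1) : MeasurableSet Q1 := by
  have hc : Countable State := countable_state (A := ℤ)
  have : Q1 = ⋃ s : State, ((⋂ h : ℤ, {ω : Conf | Wt ω h s}) ∩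
      ⋂ c : ℤ, sw ⁻¹' {ω : Conf | Et ω c (swS s)}) := by
    ext ω
    simp [Q1, A1]
  rw [this]
  refine MeasurableSet.iUnion fun s => MeasurableSet.inter (MeasurableSet.iInter fun h => hM.2.1 h s)
    (MeasurableSet.iInter fun c => ?_)
  exact (sw_preserving h0 h1).measurable (hM.2.2.1 c (swS s))

theorem Con_inv (hS : St_Sym) (ω : Conf) : tr (1, 0) ω ∈ Q1 ↔ ω ∈ Q1 := by
  have hsw : sw (tr (1, 0) ω) = tr (0, 1) (sw ω) := by
    funext v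
    simp [sw, tr]
  have key : ∀ s : State, A1 (tr (1, 0) ω) (trS (1, 0) s) ↔ A1 ω s := by
    intro s
    have hs : swS (trS (1, 0) s) = trS (0, 1) (swS s) := by
      obtain ⟨⟨x, y⟩, d⟩ := s
      simp [swS, trS]
    have e1 : ∀ h : ℤ, Wt (tr (1, 0) ω) h (trS (1, 0) s) ↔ Wt ω h s := by
      intro h
      have := (hS.1 (1, 0) ω s s h).2.1
      simpa using this
    have e2 : ∀ c : ℤ, Et (tr (0, 1) (sw ω)) (c + 1) (trS (0, 1) (swS s)) ↔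
        Et (sw ω) c (swS s) := fun c => (hS.1 (0, 1) (sw ω) (swS s) (swS s) c).2.2.1
    unfold A1
    rw [hsw, hs]
    constructor
    · rintro ⟨a, b⟩
      exact ⟨fun h => (e1 h).1 (a h), fun c => (e2 c).1 (b (c + 1))⟩
    · rintro ⟨a, b⟩
      refine ⟨fun h => (e1 h).2 (a h), fun c => ?_⟩
      have := (e2 (c - 1)).2 (b (c - 1))
      rwa [sub_add_cancel] at this
  constructor
  · rintro ⟨s, hs⟩
    refine ⟨trS (-1, 0) s, (key _).1 ?_⟩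
    have : trS (1, 0) (trS (-1, 0) s) = s := by
      obtain ⟨⟨x, y⟩, d⟩ := s
      simp [trS]
    rwa [this]
  · rintro ⟨s, hs⟩
    exact ⟨_, (key s).2 hs⟩

theorem Con_R12 (hS : St_Sym) (ω : Conf) (h : ω ∈ Q1) : Rv ω ∈ Q2 := by
  obtain ⟨s, h1, h2⟩ := h
  refine ⟨swS (rfS (swS s)), fun h => ?_, fun c => ?_⟩
  · have := (hS.2.2.2.2.2.2 ω s (-h - 1)).1.2 (h1 _)
    have e : -(-h - 1) - 1 = h := by ring
    rwa [e] at this
  · exact (hS.2.2.2.2.2.2 ω s c).2.1.2 (h2 c)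

theorem Con_R21 (hS : St_Sym) (ω : Conf) (h : ω ∈ Q2) : Rv ω ∈ Q1 := by
  obtain ⟨s, h1, h2⟩ := h
  refine ⟨swS (rfS (swS s)), fun h => ?_, fun c => ?_⟩
  · have := (hS.2.2.2.2.2.2 ω s (-h - 1)).1.2 (h1 _)
    have e : -(-h - 1) - 1 = h := by ring
    rwa [e] at this
  · exact (hS.2.2.2.2.2.2 ω s c).2.2.2 (h2 c)

theorem Con_R {p : ℝ} (h0 : 0 ≤ p) (h1 : p ≤ 1) : MeasurePreserving Rv (mir p) (mir p) :=
  (sw_preserving h0 h1).comp ((rf_preserving h0 h1).comp (sw_preserving h0 h1))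

theorem Con_or (hS : St_Sym) (hB : St_Bas1) {ω : Conf} (h1 : ∃ s, ∀ h, Uni ω h s)
    (h2 : ∃ s, ∀ h, Uni (sw ω) h s) : ω ∈ Q1 ∨ ω ∈ Q2 := by
  obtain ⟨s, hs⟩ := h1
  obtain ⟨t', ht'⟩ := h2
  obtain ⟨t, rfl⟩ : ∃ t, t' = swS t := ⟨swS t', (swS_swS t').symm⟩
  have hut : Unb ω t := ((hS.2.2.1 ω t t).1).1 (ht' 0).1.1
  have B6 := (hB ω).2.2.2.2.2.2.2.2.2.1
  have B7 := (hB (sw ω)).2.2.2.2.2.2.2.2.2.2.1
  rcases (hs 0).2.2 t hut with h | h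
  · right
    refine ⟨s, fun h => (hs h).1, fun c => ?_⟩
    exact (B7 _ _ c ((hS.2.2.1 ω t s).2.2 h)).2.1.1 (ht' c).1
  · left
    refine ⟨s, fun h => (hs h).1, fun c => ?_⟩
    have h6 := B6 _ _ h
    rw [rev_rev] at h6
    have h7 := (B7 _ _ c ((hS.2.2.1 ω (rev t) s).2.2 h6)).2.2.1
    apply h7
    rw [(hS.2.2.2.2.1 t).2]
    exact (ht' c).2.1

theorem Con_not (hS : St_Sym) (hB : St_Bas1) {ω : Conf}
    (hU : ∀ s t : State, (Wt ω 0 s → Wt ω 0 t → SE ω s t) ∧ (Et ω 0 s → Et ω 0 t → SE ω s t))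
    (hL : ∀ s : State, Unb ω s → ∀ h : ℤ,
      (∃ᶠ n in atTop, Cr h (ray ω s n)) ∧ (∃ᶠ n in atTop, Cr h (ray (sw ω) (swS s) n)))
    (h1 : ω ∈ Q1) (h2 : ω ∈ Q2) : False := by
  obtain ⟨s, hs, hs'⟩ := h1
  obtain ⟨t, ht, ht'⟩ := h2
  have hse : SE ω t s := (hU t s).1 (ht 0) (hs 0)
  have B7 := (hB (sw ω)).2.2.2.2.2.2.2.2.2.2.1
  have hw : Wt (sw ω) 0 (swS s) := (B7 _ _ 0 ((hS.2.2.1 ω t s).2.2 hse)).2.1.1 (ht' 0)
  have he : Et (sw ω) 0 (swS s) := hs' 0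
  have hf := (hL s (hs 0).1 0).2
  apply hf
  filter_upwards [hw.2 0, he.2 0] with n a b hc
  have := a hc
  have := b hc
  omega

end Conx

open Conx in
theorem thm_Con (h1 : St_Al) (h2 : St_Un) (h3 : St_Ln) (h4 : St_Erg) (h5 : St_Msb) (h6 : St_Sym)
    (h7 : St_Bas1) : St_Con := by
  intro p hp0 hp1
  by_contra hn
  have := mir_isProb hp0.le hp1.le
  have a1 := h1 p hp0 hp1 hn
  have a2 : ∀ᵐ ω ∂(mir p), ∃ s : State, ∀ h : ℤ, Uni (sw ω) h s :=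
    (sw_preserving hp0.le hp1.le).quasiMeasurePreserving.ae a1
  have hor : ∀ᵐ ω ∂(mir p), ω ∈ Q1 ∨ ω ∈ Q2 := by
    filter_upwards [a1, a2] with ω b1 b2
    exact Con_or h6 h7 b1 b2
  have hnot : ∀ᵐ ω ∂(mir p), ¬ (ω ∈ Q1 ∧ ω ∈ Q2) := by
    filter_upwards [h2 p hp0 hp1 0, h3 p hp0 hp1] with ω b1 b2 hb
    exact Con_not h6 h7 b1 b2 hb.1 hb.2
  have hR := (Con_R hp0.le hp1.le).quasiMeasurePreserving
  have hfalse : ∀ᵐ _ω ∂(mir p), False := by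
    rcases h4 p hp0.le hp1.le Q1 (Con_meas h5 hp0.le hp1.le) (Con_inv h6) with hq | hq
    · have c1 : ∀ᵐ ω ∂(mir p), Rv ω ∈ Q1 := hR.ae hq
      have c2 : ∀ᵐ ω ∂(mir p), ¬ (Rv ω ∈ Q1 ∧ Rv ω ∈ Q2) := hR.ae hnot
      filter_upwards [hq, c1, c2] with ω d1 d2 d3
      exact d3 ⟨d2, Con_R12 h6 ω d1⟩
    · have c1 : ∀ᵐ ω ∂(mir p), Rv ω ∉ Q1 := hR.ae hq
      filter_upwards [hq, hor, c1] with ω d1 d2 d3
      rcases d2 with d2 | d2
      · exact d1 d2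
      · exact d3 (Con_R21 h6 ω d2)
  have := hfalse.exists
  obtain ⟨_, h⟩ := this
  exact h

end Pool.Agent.MHF
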