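import Pool.Agent.MSB.St

/-!
# Unbounded rays of the mirror model and half-lines: definitions (architect helper98)

Problem MP_b6bbcf_pr; library `Pool/Agent/Mir`. A state `s = ((x, y), d)` means: the ray arrives at the vertex `(x, y)`
in the direction `d`; `ray ω s n` is the state after `n` steps; `rev s` is the same edge traversed in the opposite
direction, so `ray ω (rev s)` is the backward ray. The line `h` is the horizontal line between the rows `h` and `h + 1`.
-/

set_option autoImplicit false

open MeasureTheory Filter Mir

noncomputable section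

namespace Pool.Agent.MHF

/-- states -/
abbrev State := (ℤ × ℤ) × Dir

/-- configurations -/
abbrev Conf := ℤ × ℤ → Fin 3

/-- the ray from `s` is unbounded: it visits infinitely many vertices -/
def Unb (ω : Conf) (s : State) : Prop := {v | ∃ n, (ray ω s n).1 = v}.Infinite

/-- the last step of a ray in the state `s` crosses the horizontal line between the rows `h` and `h + 1` -/
def Cr (h : ℤ) (s : State) : Prop := (s.2 = Dir.N ∧ s.1.2 = h + 1) ∨ (s.2 = Dir.S ∧ s.1.2 = h)

/-- the last step of a ray in the state `s` crosses the vertical line between the columns `h` and `h + 1` -/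
def Cv (h : ℤ) (s : State) : Prop := (s.2 = Dir.E ∧ s.1.1 = h + 1) ∨ (s.2 = Dir.W ∧ s.1.1 = h)

/-- the ray from `s` is unbounded and the columns of its crossings of the line `h` tend to `-∞` -/
def Wt (ω : Conf) (h : ℤ) (s : State) : Prop :=
  Unb ω s ∧ ∀ c : ℤ, ∀ᶠ n in atTop, Cr h (ray ω s n) → (ray ω s n).1.1 < c

/-- the ray from `s` is unbounded and the columns of its crossings of the line `h` tend to `∞` -/
def Et (ω : Conf) (h : ℤ) (s : State) : Prop :=
  Unb ω s ∧ ∀ c : ℤ, ∀ᶠ n in atTop, Cr h (ray ω s n) → c < (ray ω s n).1.1

/-- the rays from `s` and from `t` merge: they have the same end -/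
def SE (ω : Conf) (s t : State) : Prop := ∃ m n, ray ω s m = ray ω t n

/-- one step of the ray as a permutation of the states -/
def stepE (ω : Conf) : Equiv.Perm State where
  toFun := step ω
  invFun := fun s => rev (step ω (rev s))
  left_inv := fun s => by
    show rev (step ω (rev (step ω s))) = s
    rw [step_rev, rev_rev]
  right_inv := fun s => by
    have h := step_rev ω (rev s)
    rw [rev_rev] at h
    show step ω (rev (step ω (rev s))) = s
    have h2 : rev (rev (step ω (rev (step ω (rev s))))) = rev (rev s) := by rw [h]
    rw [rev_rev, rev_rev] at h2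
    exact h2

/-- `s` and `t` are on the same path (up to the orientation) -/
def SP (ω : Conf) (s t : State) : Prop :=
  (stepE ω).SameCycle s t ∨ (stepE ω).SameCycle s (rev t)

/-- the configuration `ω`, replaced by `η` in `B` -/
def ov (B : Finset (ℤ × ℤ)) (η ω : Conf) : Conf := fun v => if v ∈ B then η v else ω v

/-- the square `[-N, N] ^ 2` -/
def sq (N : ℕ) : Finset (ℤ × ℤ) := Finset.Icc (-(N : ℤ)) N ×ˢ Finset.Icc (-(N : ℤ)) N

/-- some ray has its crossings of the line `h` going to the west -/
def HasW (h : ℤ) : Set Conf := {ω | ∃ s, Wt ω h s}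

/-- a ray which goes west (at the line `h`), backwards east, and all unbounded rays merge with one of its two ends -/
def Uni (ω : Conf) (h : ℤ) (s : State) : Prop :=
  Wt ω h s ∧ Et ω h (rev s) ∧ ∀ t, Unb ω t → SE ω t s ∨ SE ω t (rev s)

end Pool.Agent.MHF
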