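import Pool.Agent.MHF.St
import Pool.Agent.Mir.Prob

/-!
# [Erg] ergodicity of the horizontal translation
-/

set_option autoImplicit false

open MeasureTheory Filter Mir

noncomputable section

namespace Pool.Agent.MHF

namespace Ergx

/-- measurable sets of configurations which depend on finitely many vertices -/
def alg : Set (Set Conf) := {A | MeasurableSet A ∧ ∃ B : Finset (ℤ × ℤ), DepOn A (B : Set (ℤ × ℤ))}

theorem isAlg : IsSetAlgebra alg where
  empty_mem := ⟨MeasurableSet.empty, ∅, fun _ _ _ h => h⟩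
  compl_mem := by
    rintro A ⟨hA, B, hB⟩
    exact ⟨hA.compl, B, fun ω ω' h hω hω' => hω (hB ω' ω (fun v hv => (h v hv).symm) hω')⟩
  union_mem := by
    classical
    rintro A A' ⟨hA, B, hB⟩ ⟨hA', B', hB'⟩
    refine ⟨hA.union hA', B ∪ B', fun ω ω' h hω => ?_⟩
    rcases hω with hω | hω
    · exact Or.inl (hB ω ω' (fun v hv => h v (by
        rw [Finset.coe_union]
        exact Or.inl hv)) hω)
    · exact Or.inr (hB' ω ω' (fun v hv => h v (by
        rw [Finset.coe_union]
        exact Or.inr hv)) hω)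

theorem gen : (MeasurableSpace.pi : MeasurableSpace Conf) = MeasurableSpace.generateFrom alg := by
  apply le_antisymm
  · refine iSup_le fun v => ?_
    rintro s ⟨t, ht, rfl⟩
    apply MeasurableSpace.measurableSet_generateFrom
    refine ⟨measurable_pi_apply v ht, {v}, fun ω ω' h hω => ?_⟩
    have : ω v = ω' v := h v (by simp)
    change ω' v ∈ t
    rw [← this]
    exact hω
  · exact MeasurableSpace.generateFrom_le fun A hA => hA.1

theorem tr_tr (n : ℕ) (ω : Conf) : tr (1, 0) (tr ((n : ℤ), 0) ω) = tr (((n + 1 : ℕ) : ℤ), 0) ω := by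
  funext v
  unfold tr
  congr 1
  ext
  · simp
    ring
  · simp

theorem inv_n (X : Set Conf) (hX : ∀ ω, tr (1, 0) ω ∈ X ↔ ω ∈ X) (n : ℕ) (ω : Conf) :
    tr ((n : ℤ), 0) ω ∈ X ↔ ω ∈ X := by
  induction n with
  | zero =>
    have : tr (((0 : ℕ) : ℤ), 0) ω = ω := by
      funext v
      unfold tr
      congr 1
      ext <;> simp
    rw [this]
  | succ n ih =>
    rw [← tr_tr, hX, ih]

theorem shift (B : Finset (ℤ × ℤ)) : ∃ n : ℕ, ∀ v ∈ B, v - ((n : ℤ), 0) ∉ B := by
  obtain ⟨M, hM⟩ := (B.image fun v => v.1).bddAbove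
  obtain ⟨m, hm⟩ := (B.image fun v => v.1).bddBelow
  refine ⟨(M - m + 1).toNat, fun v hv hv' => ?_⟩
  have h1 : v.1 ≤ M := hM (by
    rw [Finset.coe_image]
    exact ⟨v, hv, rfl⟩)
  have h2 : m ≤ (v - (((M - m + 1).toNat : ℤ), 0)).1 := hm (by
    rw [Finset.coe_image]
    exact ⟨_, hv', rfl⟩)
  have h3 : (v - (((M - m + 1).toNat : ℤ), (0 : ℤ))).1 = v.1 - ((M - m + 1).toNat : ℤ) := rfl
  rw [h3] at h2
  omega

theorem sqr (p : ℝ) (h0 : 0 ≤ p) (h1 : p ≤ 1) (X : Set Conf) (hX : MeasurableSet X)
    (hi : ∀ ω, tr (1, 0) ω ∈ X ↔ ω ∈ X) : (mir p).real X = (mir p).real X ^ 2 := by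
  have hP := mir_isProb h0 h1
  have hD := Measure.MeasureDense.of_generateFrom_isSetAlgebra_finite (mir p) isAlg gen
  have key : ∀ ε : ℝ, 0 < ε → |(mir p).real X - (mir p).real X ^ 2| ≤ 4 * ε := by
    intro ε hε
    obtain ⟨A, ⟨hA, B, hB⟩, hAε⟩ := hD.approx X hX (measure_ne_top _ _) ε hε
    have hAr : (mir p).real (symmDiff X A) < ε := by
      rw [Measure.real]
      exact (ENNReal.toReal_lt_of_lt_ofReal hAε)
    obtain ⟨n, hn⟩ := shift B
    set A' : Set Conf := tr ((n : ℤ), 0) ⁻¹' A with hA'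
    have hmp := tr_preserving h0 h1 ((n : ℤ), 0)
    have hA'm : MeasurableSet A' := hmp.measurable hA
    have e1 : (mir p).real A' = (mir p).real A := by
      rw [Measure.real, Measure.real, hmp.measure_preimage hA.nullMeasurableSet]
    have hXX : tr ((n : ℤ), 0) ⁻¹' X = X := by
      ext ω
      exact inv_n X hi n ω
    have e2 : (mir p).real (symmDiff X A') = (mir p).real (symmDiff X A) := by
      have : symmDiff X A' = tr ((n : ℤ), 0) ⁻¹' (symmDiff X A) := by
        rw [Set.preimage_symmDiff, hXX]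
      rw [this, Measure.real, Measure.real,
        hmp.measure_preimage (hX.symmDiff hA).nullMeasurableSet]
    have hind : (mir p).real (A ∩ A') = (mir p).real A * (mir p).real A' := by
      refine indep_mul_real (G := (B : Set (ℤ × ℤ)))
        (G' := {v | v + ((n : ℤ), 0) ∈ B}) h0 h1 ?_ hA hA'm hB ?_
      · rw [Set.disjoint_left]
        intro v hv hv'
        have h2 := hn _ hv'
        rw [add_sub_cancel_right] at h2
        exact h2 hv
      · intro ω ω' h hω
        refine hB _ _ (fun v hv => ?_) hω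
        unfold tr
        refine h _ ?_
        change v - ((n : ℤ), 0) + ((n : ℤ), 0) ∈ B
        rw [sub_add_cancel]
        exact hv
    have h3 : |(mir p).real X - (mir p).real A| ≤ (mir p).real (symmDiff X A) :=
      abs_measureReal_sub_le_measureReal_symmDiff hX.nullMeasurableSet hA.nullMeasurableSet
    have h4 : |(mir p).real X - (mir p).real (A ∩ A')| ≤ (mir p).real (symmDiff X (A ∩ A')) :=
      abs_measureReal_sub_le_measureReal_symmDiff hX.nullMeasurableSet
        (hA.inter hA'm).nullMeasurableSet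
    have h5 : (mir p).real (symmDiff X (A ∩ A')) ≤
        (mir p).real (symmDiff X A) + (mir p).real (symmDiff X A') := by
      refine (measureReal_mono ?_).trans (measureReal_union_le _ _)
      intro ω hω
      rcases hω with ⟨h1, h2⟩ | ⟨h1, h2⟩
      · by_cases h3 : ω ∈ A
        · exact Or.inr (Or.inl ⟨h1, fun h => h2 ⟨h3, h⟩⟩)
        · exact Or.inl (Or.inl ⟨h1, h3⟩)
      · exact Or.inl (Or.inr ⟨h1.1, h2⟩)
    rw [e2] at h5
    rw [hind, e1] at h4
    have h6 : 0 ≤ (mir p).real A := measureReal_nonneg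
    have h7 : (mir p).real A ≤ 1 := measureReal_le_one
    have h8 : 0 ≤ (mir p).real X := measureReal_nonneg
    have h9 : (mir p).real X ≤ 1 := measureReal_le_one
    rw [abs_le] at h3 h4 ⊢
    constructor <;> nlinarith [h3.1, h3.2, h4.1, h4.2]
  by_contra hne
  have h2 : 0 < |(mir p).real X - (mir p).real X ^ 2| := abs_pos.2 (sub_ne_zero.2 hne)
  have := key (|(mir p).real X - (mir p).real X ^ 2| / 8) (by linarith)
  linarith

end Ergx

open Ergx in
/-- **Erg** -/
theorem thm_Erg : St_Erg := by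
  intro p h0 h1 X hX hi
  have hP := mir_isProb h0 h1
  have h := sqr p h0 h1 X hX hi
  have h2 : (mir p).real X = 0 ∨ (mir p).real X = 1 := by
    have : (mir p).real X * ((mir p).real X - 1) = 0 := by linarith [h, pow_two ((mir p).real X)]
    rcases mul_eq_zero.1 this with h3 | h3
    · exact Or.inl h3
    · exact Or.inr (by linarith)
  rcases h2 with h2 | h2
  · right
    have h3 : mir p X = 0 := by
      rwa [measureReal_eq_zero_iff] at h2
    exact measure_eq_zero_iff_ae_notMem.1 h3
  · left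
    have h3 : mir p X = 1 := by
      rw [Measure.real, ENNReal.toReal_eq_one_iff] at h2
      exact h2
    exact (mem_ae_iff_prob_eq_one hX).2 h3

end Pool.Agent.MHF
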