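import Pool.Agent.MHF.St
import Pool.Agent.Mir.Prob

/-!
# [Ex1] There is a path with one end of type W and the other one of type E
-/

set_option autoImplicit false

open MeasureTheory Filter Mir

noncomputable section

namespace Pool.Agent.MHF

private theorem Ex1_trS (z : ℤ × ℤ) (s : State) : trS z (trS (-z) s) = s := by
  unfold trS
  ext <;> simp

/-- events of the form: some state has a covariant property -/
private theorem Ex1_inv {P : Conf → State → Prop} (z : ℤ × ℤ)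
    (hP : ∀ ω s, P (tr z ω) (trS z s) ↔ P ω s) (ω : Conf) :
    tr z ω ∈ {ω : Conf | ∃ s, P ω s} ↔ ω ∈ {ω : Conf | ∃ s, P ω s} := by
  constructor
  · rintro ⟨s, hs⟩
    refine ⟨trS (-z) s, (hP ω _).mp ?_⟩
    rw [Ex1_trS]
    exact hs
  · rintro ⟨s, hs⟩
    exact ⟨trS z s, (hP ω s).mpr hs⟩

private theorem Ex1_meas {P : Conf → State → Prop} (hP : ∀ s, MeasurableSet {ω : Conf | P ω s}) :
    MeasurableSet {ω : Conf | ∃ s, P ω s} := by
  have : {ω : Conf | ∃ s, P ω s} = ⋃ s : State, {ω : Conf | P ω s} := by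
    ext ω
    simp
  rw [this]
  have : Countable State := countable_state
  exact MeasurableSet.iUnion hP

/-- the two types exclude each other when the line is crossed infinitely often -/
private theorem Ex1_not {ω : Conf} {h : ℤ} {s : State} (hf : ∃ᶠ n in atTop, Cr h (ray ω s n))
    (hW : Wt ω h s) (hE : Et ω h s) : False := by
  have h3 := (hf.and_eventually (hW.2 0)).and_eventually (hE.2 0)
  obtain ⟨n, ⟨a, b⟩, c⟩ := h3.exists
  have := b a
  have := c a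
  omega

/-- **Ex1**. -/
theorem thm_Ex1 (hErg : St_Erg) (hMsb : St_Msb) (hSym : St_Sym) (hLn : St_Ln) (hFe : St_Fe)
    (hRej : St_Rej) (hBas : St_Bas1) : St_Ex1 := by
  intro p h0 h1 h hne
  have hz : ∀ ω (s : State), (Wt (tr (1, 0) ω) h (trS (1, 0) s) ↔ Wt ω h s) ∧
      (Et (tr (1, 0) ω) h (trS (1, 0) s) ↔ Et ω h s) := by
    intro ω s
    obtain ⟨-, a, b, -⟩ := hSym.1 (1, 0) ω s s h
    rw [show h + ((1, 0) : ℤ × ℤ).2 = h from add_zero h] at a b
    exact ⟨a, b⟩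
  have hrev := hSym.2.2.2.1 (1, 0)
  -- almost surely some ray is of type W
  have hW : ∀ᵐ ω ∂(mir p), ω ∈ HasW h := by
    rcases hErg p h0.le h1.le (HasW h) (Ex1_meas (P := fun ω s => Wt ω h s) (hMsb.2.1 h))
      (Ex1_inv (P := fun ω s => Wt ω h s) (1, 0) (fun ω s => (hz ω s).1)) with h2 | h2
    · exact h2
    · exact absurd h2 hne
  -- by reflection some ray is of type E
  have hE : ∀ᵐ ω ∂(mir p), ∃ s : State, Et ω h s := by
    have h2 : ∀ᵐ ω ∂(mir p), rf ω ∈ HasW h :=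
      (rf_preserving h0.le h1.le).quasiMeasurePreserving.ae hW
    filter_upwards [h2] with ω hω
    obtain ⟨s, hs⟩ := hω
    refine ⟨rfS s, ?_⟩
    obtain ⟨-, a, -, -⟩ := hSym.2.1 ω (rfS s) s h
    rw [rfS_rfS] at a
    exact a.mp hs
  -- the event of the statement
  rcases hErg p h0.le h1.le {ω : Conf | ∃ s, Wt ω h s ∧ Et ω h (rev s)}
    (Ex1_meas (P := fun ω s => Wt ω h s ∧ Et ω h (rev s))
      (fun s => (hMsb.2.1 h s).inter (hMsb.2.2.1 h (rev s))))
    (Ex1_inv (P := fun ω s => Wt ω h s ∧ Et ω h (rev s)) (1, 0) (fun ω s => by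
      rw [← hrev s]
      exact and_congr (hz ω s).1 (hz ω (rev s)).2)) with h2 | h2
  · exact h2
  · have hN : ∀ᵐ ω ∂(mir p), ∀ N : ℕ, ∀ η : Conf,
        ov (sq N) η ω ∉ {ω : Conf | ∃ s : State, Wt ω h s ∧ Et ω h (rev s)} :=
      ae_all_iff.mpr fun N => hFe p h0 h1 (sq N) _ h2
    filter_upwards [hW, hE, hN, hLn p h0 h1] with ω hW hE hN hL
    exfalso
    obtain ⟨s, hs⟩ := hW
    obtain ⟨t, ht⟩ := hE
    obtain ⟨-, -, -, -, -, -, -, -, -, -, h11, -, -⟩ := hBas ω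
    have hc : ¬ SE ω s t := fun hc =>
      Ex1_not (hL s hs.1 h).1 hs ((h11 s t h hc).2.2.mpr ht)
    obtain ⟨N, hNs, hNt⟩ : ∃ N : ℕ, s.1 ∈ sq N ∧ t.1 ∈ sq N := by
      refine ⟨s.1.1.natAbs + s.1.2.natAbs + t.1.1.natAbs + t.1.2.natAbs, ?_, ?_⟩ <;>
      · simp only [sq, Finset.mem_product, Finset.mem_Icc]
        refine ⟨⟨?_, ?_⟩, ?_, ?_⟩ <;> omega
    obtain ⟨η, s', hs'⟩ := hRej ω N s t hs.1 ht.1 hc hNs hNt
    obtain ⟨a, -, -, b⟩ := hs' h
    exact hN N η ⟨s', a.mpr hs, b.mpr ht⟩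

end Pool.Agent.MHF
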