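import Pool.Agent.MHF.St
import Pool.Agent.Mir.Prob

/-!
# MHF, module Ex2: exactly one unbounded path
-/

set_option autoImplicit false

open MeasureTheory Filter Mir

noncomputable section

namespace Pool.Agent.MHF

namespace Ex2x

/-- the square which contains two given vertices -/
theorem exN (v w : ℤ × ℤ) : ∃ N : ℕ, v ∈ sq N ∧ w ∈ sq N := by
  refine ⟨v.1.natAbs + v.2.natAbs + w.1.natAbs + w.2.natAbs, ?_, ?_⟩ <;>
  · simp only [sq, Finset.mem_product, Finset.mem_Icc]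
    omega

end Ex2x

theorem thm_Ex2 (hEx1 : St_Ex1) (hUn : St_Un) (hFe : St_Fe) (hRej : St_Rej) (hBas1 : St_Bas1)
    (_hLn : St_Ln) : St_Ex2 := by
  intro p hp0 hp1 h hW
  let Y : Set Conf := {ω | ¬ ((∃ s : State, Wt ω h s ∧ Et ω h (rev s)) ∧ ∀ s t : State,
    (Wt ω h s → Wt ω h t → SE ω s t) ∧ (Et ω h s → Et ω h t → SE ω s t))}
  have hY : ∀ᵐ ω ∂(mir p), ω ∉ Y := by
    filter_upwards [hEx1 p hp0 hp1 h hW, hUn p hp0 hp1 h] with ω h1 h2 h3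
    exact h3 ⟨h1, h2⟩
  have hY2 : ∀ᵐ ω ∂(mir p), ∀ N : ℕ, ∀ η : Conf, ov (sq N) η ω ∉ Y :=
    ae_all_iff.2 fun N => hFe p hp0 hp1 (sq N) Y hY
  filter_upwards [hY, hY2] with ω h1 h2
  obtain ⟨⟨s, hs1, hs2⟩, hu⟩ := not_not.1 h1
  refine ⟨s, hs1, hs2, fun t ht => ?_⟩
  by_contra hcon
  rw [not_or] at hcon
  obtain ⟨c1, c2⟩ := hcon
  obtain ⟨N, hN1, hN2⟩ := Ex2x.exN s.1 t.1
  obtain ⟨-, -, -, -, -, -, bsymm, -, -, -, -, -, -⟩ := hBas1 ω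
  obtain ⟨η, s', hs'⟩ := hRej ω N s t hs1.1 ht (fun h => c1 (bsymm _ _ h)) hN1 hN2
  obtain ⟨r1, -, -, r4⟩ := hs' h
  obtain ⟨⟨u, hu1, hu2⟩, hu3⟩ := not_not.1 (h2 N η)
  obtain ⟨-, -, -, -, -, -, -, -, -, brev, bty, -, -⟩ := hBas1 (ov (sq N) η ω)
  have e1 : SE (ov (sq N) η ω) u s' := (hu3 u s').1 hu1 (r1.2 hs1)
  have e2 : Et (ov (sq N) η ω) h (rev s') := (bty _ _ h (brev _ _ e1)).2.2.1 hu2
  have e3 : Et ω h t := r4.1 e2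
  exact c2 ((hu t (rev s)).2 e3 hs2)

end Pool.Agent.MHF
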