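import Pool.Agent.MHF.St
import Pool.Agent.Mir.Prob

/-!
# MHF / Fe: finite energy
-/

set_option autoImplicit false

open MeasureTheory Filter Mir

noncomputable section

namespace Pool.Agent.MHF

private theorem fe_ov_insert (B : Finset (ℤ × ℤ)) (v : ℤ × ℤ) (hv : v ∉ B) (η ω : Conf) :
    ov (insert v B) η ω = ov B η (Function.update ω v (η v)) := by
  funext w
  unfold ov
  by_cases hw : w = v
  · subst hw
    rw [if_pos (Finset.mem_insert_self _ _), if_neg hv, Function.update_self]
  · by_cases hB : w ∈ B
    · rw [if_pos (Finset.mem_insert_of_mem hB), if_pos hB]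
    · rw [if_neg (by
        rw [Finset.mem_insert]
        rintro (h | h)
        · exact hw h
        · exact hB h), if_neg hB, Function.update_of_ne hw]

theorem thm_Fe : St_Fe := by
  intro p h0 h1 B X hX
  have hP := mir_isProb h0.le h1.le
  have hw : 0 < wm p := lt_min (by linarith) (by linarith)
  induction B using Finset.induction_on with
  | empty =>
    filter_upwards [hX] with ω hω η
    exact hω
  | insert v B hv ih =>
    set Y : Set Conf := {ω | ∃ η, ov B η ω ∈ X} with hY
    have hY0 : mir p Y = 0 := by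
      have h2 : ∀ᵐ ω ∂(mir p), ω ∉ Y := by
        filter_upwards [ih] with ω hω
        rintro ⟨η, hη⟩
        exact hω η hη
      have h3 := ae_iff.1 h2
      simpa using h3
    set Z : Set Conf := toMeasurable (mir p) Y with hZ
    have hZm : MeasurableSet Z := measurableSet_toMeasurable _ _
    have hZ0 : mir p Z = 0 := by
      rw [hZ, measure_toMeasurable]
      exact hY0
    have hYZ : Y ⊆ Z := subset_toMeasurable _ _
    have hres := resample h0.le h1.le v hZm
    have hZr : (mirOn (ℤ × ℤ) p).real Z = 0 := by
      have h3 : mirOn (ℤ × ℤ) p Z = 0 := hZ0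
      unfold Measure.real
      rw [h3, ENNReal.toReal_zero]
    rw [hZr] at hres
    have h4 : (mirOn (ℤ × ℤ) p).real {ω | ∃ a, Function.update ω v a ∈ Z} = 0 := by
      have h5 : 0 ≤ (mirOn (ℤ × ℤ) p).real {ω | ∃ a, Function.update ω v a ∈ Z} :=
        measureReal_nonneg
      by_contra h6
      have h7 : 0 < (mirOn (ℤ × ℤ) p).real {ω | ∃ a, Function.update ω v a ∈ Z} :=
        lt_of_le_of_ne h5 (Ne.symm h6)
      have h8 := mul_pos hw h7
      linarith
    have h5 : mir p {ω | ∃ a, Function.update ω v a ∈ Z} = 0 := by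
      have h6 := (measureReal_eq_zero_iff (measure_ne_top (mir p)
        {ω | ∃ a, Function.update ω v a ∈ Z})).1 h4
      exact h6
    have h6 : ∀ᵐ ω ∂(mir p), ¬ ∃ a, Function.update ω v a ∈ Z := by
      rw [ae_iff]
      simpa using h5
    filter_upwards [h6] with ω hω η
    rw [fe_ov_insert B v hv]
    intro hX2
    exact hω ⟨η v, hYZ ⟨η, hX2⟩⟩

end Pool.Agent.MHF
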