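import Pool.Agent.MHF.St
import Pool.Agent.Mir.Prob

/-!
# Unbounded rays cross every half-line infinitely often
-/

set_option autoImplicit false

open MeasureTheory Filter Mir

noncomputable section

namespace Pool.Agent.MHF

namespace Finx

theorem east {ω : Conf} {s : State} {h c : ℤ} (hU : Unb ω s) (hW : ¬ Wt ω h s)
    (hb : ∀ c : ℤ, ∀ᶠ n in atTop, Cr h (ray ω s n) → c < |(ray ω s n).1.1|) :
    ∃ᶠ n in atTop, Cr h (ray ω s n) ∧ c ≤ (ray ω s n).1.1 := by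
  have h1 : ∃ c0 : ℤ, ¬ ∀ᶠ n in atTop, Cr h (ray ω s n) → (ray ω s n).1.1 < c0 := by
    by_contra h2
    push Not at h2
    exact hW ⟨hU, h2⟩
  obtain ⟨c0, h1⟩ := h1
  rw [not_eventually] at h1
  refine (h1.and_eventually (hb (max |c0| |c|))).mono ?_
  rintro n ⟨hn, hn'⟩
  rw [Classical.not_imp] at hn
  obtain ⟨hcr, hx⟩ := hn
  rw [not_lt] at hx
  have h3 := hn' hcr
  have h4 : |c0| < |(ray ω s n).1.1| := lt_of_le_of_lt (le_max_left _ _) h3
  have h5 : |c| < |(ray ω s n).1.1| := lt_of_le_of_lt (le_max_right _ _) h3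
  refine ⟨hcr, ?_⟩
  have h6 := neg_abs_le c0
  have h7 := le_abs_self c
  rcases abs_cases (ray ω s n).1.1 with ⟨h8, _⟩ | ⟨h8, _⟩
  · omega
  · omega

theorem west {ω : Conf} {s : State} {h c : ℤ} (hU : Unb ω s) (hE : ¬ Et ω h s)
    (hb : ∀ c : ℤ, ∀ᶠ n in atTop, Cr h (ray ω s n) → c < |(ray ω s n).1.1|) :
    ∃ᶠ n in atTop, Cr h (ray ω s n) ∧ (ray ω s n).1.1 ≤ c := by
  have h1 : ∃ c0 : ℤ, ¬ ∀ᶠ n in atTop, Cr h (ray ω s n) → c0 < (ray ω s n).1.1 := by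
    by_contra h2
    push Not at h2
    exact hE ⟨hU, h2⟩
  obtain ⟨c0, h1⟩ := h1
  rw [not_eventually] at h1
  refine (h1.and_eventually (hb (max |c0| |c|))).mono ?_
  rintro n ⟨hn, hn'⟩
  rw [Classical.not_imp] at hn
  obtain ⟨hcr, hx⟩ := hn
  rw [not_lt] at hx
  have h3 := hn' hcr
  have h4 : |c0| < |(ray ω s n).1.1| := lt_of_le_of_lt (le_max_left _ _) h3
  have h5 : |c| < |(ray ω s n).1.1| := lt_of_le_of_lt (le_max_right _ _) h3
  refine ⟨hcr, ?_⟩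
  have h6 := le_abs_self c0
  have h7 := neg_abs_le c
  rcases abs_cases (ray ω s n).1.1 with ⟨h8, _⟩ | ⟨h8, _⟩
  · omega
  · omega

theorem noWt (hC : St_Con) (hS : St_Sym) {p : ℝ} (h0 : 0 < p) (h1 : p < 1) :
    ∀ᵐ ω ∂(mir p), ∀ (h : ℤ) (s : State), ¬ Wt ω h s := by
  rw [ae_all_iff]
  intro h
  have h2 := (tr_preserving h0.le h1.le (0, -h)).quasiMeasurePreserving.ae (hC p h0 h1)
  filter_upwards [h2] with ω hω s hs
  apply hω
  refine ⟨trS (0, -h) s, ?_⟩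
  have h3 := ((hS.1 (0, -h) ω s s h).2.1).mpr hs
  have h4 : h + ((0, -h) : ℤ × ℤ).2 = 0 := by
    show h + -h = 0
    ring
  rw [h4] at h3
  exact h3

theorem noEt (hC : St_Con) (hS : St_Sym) {p : ℝ} (h0 : 0 < p) (h1 : p < 1) :
    ∀ᵐ ω ∂(mir p), ∀ (h : ℤ) (s : State), ¬ Et ω h s := by
  have h2 := (rf_preserving h0.le h1.le).quasiMeasurePreserving.ae (noWt hC hS h0 h1)
  filter_upwards [h2] with ω hω h s hs
  exact hω h (rfS s) (((hS.2.1 ω s s h).2.1).mpr hs)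

end Finx

theorem thm_Fin (hC : St_Con) (hB : St_Bas1) (hS : St_Sym) (_hL : St_Ln) : St_Fin := by
  intro p h0 h1
  have hW := Finx.noWt hC hS h0 h1
  have hE := Finx.noEt hC hS h0 h1
  have hW' := (sw_preserving h0.le h1.le).quasiMeasurePreserving.ae hW
  have hE' := (sw_preserving h0.le h1.le).quasiMeasurePreserving.ae hE
  filter_upwards [hW, hE, hW', hE'] with ω hW hE hW' hE' s hU h c
  have hb : ∀ (ω : Conf) (s : State) (h : ℤ), Unb ω s → ∀ c : ℤ,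
      ∀ᶠ n in atTop, Cr h (ray ω s n) → c < |(ray ω s n).1.1| := by
    intro ω s h hU c
    exact (hB ω).2.2.2.2.2.2.2.2.2.2.2.1 s h c hU
  have hU' : Unb (sw ω) (swS s) := ((hS.2.2.1 ω s s).1).mpr hU
  have hCv : ∀ n, Cr h (ray (sw ω) (swS s) n) ↔ Cv h (ray ω s n) := by
    intro n
    rw [ray_sw]
    exact hS.2.2.2.2.2.1 h _
  have hx : ∀ n, (ray (sw ω) (swS s) n).1.1 = (ray ω s n).1.2 := by
    intro n
    rw [ray_sw]
    rfl
  refine ⟨Finx.east hU (hW h s) (hb ω s h hU), Finx.west hU (hE h s) (hb ω s h hU), ?_, ?_⟩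
  · have h2 := Finx.east (c := c) hU' (hW' h (swS s)) (hb (sw ω) (swS s) h hU')
    refine h2.mono fun n hn => ?_
    rw [hCv, hx] at hn
    exact hn
  · have h2 := Finx.west (c := c) hU' (hE' h (swS s)) (hb (sw ω) (swS s) h hU')
    refine h2.mono fun n hn => ?_
    rw [hCv, hx] at hn
    exact hn

end Pool.Agent.MHF
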