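import Pool.Agent.MHF.St
import Pool.Agent.Mir.Prob

/-!
# Unbounded rays cross every half-line infinitely often: module `Hp` (problem MP_b6bbcf_pr)

No ray of the mirror model stays in a half-plane after its last visit of a boundary vertex.
-/

set_option autoImplicit false

open MeasureTheory Filter Mir

noncomputable section

namespace Pool.Agent.MHF

namespace Hpx

/-- the ray from `s0` stays in the upper half-plane with probability zero -/
theorem up_null (hQ : Pool.Agent.MSB.St_Qn) {p : ℝ} (h0 : 0 < p) (h1 : p < 1) :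
    (mir p).real {ω | ∀ n, 1 ≤ (ray ω Pool.Agent.MSB.s0 n).1.2} = 0 := by
  have := mir_isProb h0.le h1.le
  obtain ⟨C, hC⟩ := hQ p h0 h1
  have hle : ∀ n : ℕ, (mir p).real {ω | ∀ n, 1 ≤ (ray ω Pool.Agent.MSB.s0 n).1.2}
      ≤ C * ((n : ℝ) + 1) ^ (-(1 / 14 : ℝ)) := by
    intro n
    refine le_trans ?_ (hC n)
    refine measureReal_mono ?_
    intro ω hω i _
    exact hω i
  have hlim : Tendsto (fun n : ℕ => C * ((n : ℝ) + 1) ^ (-(1 / 14 : ℝ))) atTop (nhds 0) := by
    have h2 : Tendsto (fun n : ℕ => (n : ℝ) + 1) atTop atTop :=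
      tendsto_atTop_add_const_right _ _ tendsto_natCast_atTop_atTop
    have h3 := (tendsto_rpow_neg_atTop (show (0 : ℝ) < 1 / 14 by norm_num)).comp h2
    have h4 := h3.const_mul C
    simpa using h4
  refine le_antisymm ?_ measureReal_nonneg
  exact ge_of_tendsto' hlim hle

/-- the ray starting upwards from `v` stays above with probability zero -/
theorem v_null (hQ : Pool.Agent.MSB.St_Qn) {p : ℝ} (h0 : 0 < p) (h1 : p < 1) (v : ℤ × ℤ) :
    (mir p).real {ω | ∀ n, v.2 ≤ (ray ω (v, Dir.N) n).1.2} = 0 := by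
  have := mir_isProb h0.le h1.le
  have hmp := tr_preserving h0.le h1.le (((0 : ℤ), (1 : ℤ)) - v)
  have hms : MeasurableSet {ω : Conf | ∀ n, 1 ≤ (ray ω Pool.Agent.MSB.s0 n).1.2} := by
    have : {ω : Conf | ∀ n, 1 ≤ (ray ω Pool.Agent.MSB.s0 n).1.2}
        = ⋂ n, {ω : Conf | 1 ≤ (ray ω Pool.Agent.MSB.s0 n).1.2} := by
      ext ω; simp
    rw [this]
    exact MeasurableSet.iInter fun n =>
      meas_ray_prop Pool.Agent.MSB.s0 n fun t => 1 ≤ t.1.2
  have heq : {ω : Conf | ∀ n, v.2 ≤ (ray ω (v, Dir.N) n).1.2}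
      = tr (((0 : ℤ), (1 : ℤ)) - v) ⁻¹' {ω : Conf | ∀ n, 1 ≤ (ray ω Pool.Agent.MSB.s0 n).1.2} := by
    ext ω
    show (∀ n, v.2 ≤ (ray ω (v, Dir.N) n).1.2) ↔
      ∀ n, 1 ≤ (ray (tr (((0 : ℤ), (1 : ℤ)) - v) ω) Pool.Agent.MSB.s0 n).1.2
    refine forall_congr' fun n => ?_
    have h2 : Pool.Agent.MSB.s0 = trS (((0 : ℤ), (1 : ℤ)) - v) (v, Dir.N) := by
      unfold Pool.Agent.MSB.s0 trS
      simp
    rw [h2, ray_tr]
    show v.2 ≤ (ray ω (v, Dir.N) n).1.2 ↔ 1 ≤ (ray ω (v, Dir.N) n).1.2 + (1 - v.2)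
    constructor <;> intro h <;> linarith
  rw [heq, Measure.real, hmp.measure_preimage hms.nullMeasurableSet]
  exact up_null hQ h0 h1

end Hpx

theorem thm_Hp (hQ : Pool.Agent.MSB.St_Qn) : St_Hp := by
  intro p h0 h1
  have := mir_isProb h0.le h1.le
  have : Countable State := countable_state (A := ℤ)
  refine ae_all_iff.2 fun s => ?_
  by_cases hs : s.2 = Dir.S
  · exact Eventually.of_forall fun ω h => absurd hs h
  set v : ℤ × ℤ := s.1 - vec s.2 with hv
  set B : Set Conf := {ω | ∀ n, v.2 ≤ (ray ω (v, Dir.N) n).1.2} with hB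
  have hBm : MeasurableSet B := by
    have : B = ⋂ n, {ω : Conf | v.2 ≤ (ray ω (v, Dir.N) n).1.2} := by
      ext ω; simp [hB]
    rw [this]
    exact MeasurableSet.iInter fun n => meas_ray_prop (v, Dir.N) n fun t => v.2 ≤ t.1.2
  have hB0 : (mir p).real B = 0 := Hpx.v_null hQ h0 h1 v
  have hres := resample h0.le h1.le v hBm
  have hz : (mirOn (ℤ × ℤ) p).real {ω | ∃ a, Function.update ω v a ∈ B} = 0 := by
    have h2 : (mirOn (ℤ × ℤ) p).real B = 0 := hB0
    rw [h2] at hres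
    have h3 := wm_pos h0 h1
    have h4 : 0 ≤ (mirOn (ℤ × ℤ) p).real {ω | ∃ a, Function.update ω v a ∈ B} :=
      measureReal_nonneg
    nlinarith
  have hz' : (mir p) {ω | ∃ a, Function.update ω v a ∈ B} = 0 := by
    have h5 : (mir p).real {ω | ∃ a, Function.update ω v a ∈ B} = 0 := hz
    exact (measureReal_eq_zero_iff).1 h5
  rw [ae_iff]
  refine measure_mono_null ?_ hz'
  intro ω hω
  have hω2 : ¬ (s.2 ≠ Dir.S → ¬ ∀ n, v.2 ≤ (ray ω s n).1.2 ∧ (ray ω s n).1 ≠ v) := hω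
  rw [Classical.not_imp, not_not] at hω2
  obtain ⟨hd, hω⟩ := hω2
  obtain ⟨a, ha⟩ := exists_turn Dir.N s.2 hd
  refine ⟨a, ?_⟩
  have hst : step (Function.update ω v a) (v, Dir.N) = s := by
    show (v + vec (turn (Function.update ω v a v) Dir.N), turn (Function.update ω v a v) Dir.N) = s
    rw [Function.update_self, ha, hv]
    simp
  intro n
  cases n with
  | zero => exact le_rfl
  | succ n =>
    rw [ray_succ', hst]
    have hc := ray_congr (ω := ω) (ω' := Function.update ω v a) (s := s) (n := n)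
      (fun i _ => (Function.update_of_ne (hω i).2 _ _).symm) n le_rfl
    rw [hc]
    exact (hω n).1

end Pool.Agent.MHF
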