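import Pool.Agent.MHF.St
import Pool.Agent.Mir.Det

/-!
# MHF, module Jn: two boundary edges of a square can be joined inside
-/

set_option autoImplicit false

open MeasureTheory Filter Mir

noncomputable section

namespace Pool.Agent.MHF

namespace Jnx

/-- a self-avoiding path of vertices gives a configuration whose ray follows it -/
theorem core (N : ℕ) (s t : State) (hs : Enters (sq N : Set (ℤ × ℤ)) s)
    (ht : Enters (sq N : Set (ℤ × ℤ)) t) (hne : s ≠ t) (m : ℕ) (v : ℕ → ℤ × ℤ) (d : ℕ → Dir)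
    (h0 : v 0 = s.1) (hm : v m = t.1) (hd0 : d 0 = s.2) (hdm : d (m + 1) = t.2.opp)
    (hin : ∀ i ≤ m, v i ∈ (sq N : Set (ℤ × ℤ)))
    (hstep : ∀ i < m, v (i + 1) = v i + vec (d (i + 1)))
    (hinj : ∀ i ≤ m, ∀ j ≤ m, v i = v j → i = j) :
    ∃ η : Conf, ∀ ω : Conf, ray (ov (sq N) η ω) s (m + 1) = rev t := by
  classical
  have hturn : ∀ i, ∃ a : Fin 3, i ≤ m → turn a (d i) = d (i + 1) := by
    intro i
    by_cases him : i ≤ m
    swap
    · exact ⟨0, fun h => absurd h him⟩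
    have hU : d (i + 1) ≠ (d i).opp := by
      intro hU
      rcases Nat.lt_or_ge i m with him' | him'
      · rcases Nat.eq_zero_or_pos i with hi | hi
        · subst hi
          have h1 := hstep 0 him'
          rw [hU, hd0, h0, vec_opp, ← sub_eq_add_neg] at h1
          exact hs.2 (h1 ▸ hin 1 (by omega))
        · obtain ⟨j, rfl⟩ : ∃ j, i = j + 1 := ⟨i - 1, by omega⟩
          have h1 := hstep (j + 1) him'
          have h2 := hstep j (by omega)
          rw [hU, vec_opp, h2, add_neg_cancel_right] at h1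
          have := hinj (j + 1 + 1) (by omega) j (by omega) h1
          omega
      · have hi : i = m := le_antisymm him him'
        subst hi
        rw [hdm] at hU
        have hU' : t.2 = d i := by
          rw [← opp_opp t.2, hU, opp_opp]
        rcases Nat.eq_zero_or_pos i with hi | hi
        · subst hi
          apply hne
          refine Prod.ext ?_ ?_
          · rw [← h0, hm]
          · rw [hU', hd0]
        · obtain ⟨j, rfl⟩ : ∃ j, i = j + 1 := ⟨i - 1, by omega⟩
          have h2 := hstep j (by omega)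
          apply ht.2
          rw [← hm, hU', h2, add_sub_cancel_right]
          exact hin j (by omega)
    obtain ⟨a, ha⟩ := exists_turn (d i) (d (i + 1)) hU
    exact ⟨a, fun _ => ha⟩
  choose a ha using hturn
  let η : Conf := fun w => if h : ∃ i, i ≤ m ∧ v i = w then a h.choose else 0
  have hη : ∀ i ≤ m, η (v i) = a i := by
    intro i hi
    have h : ∃ j, j ≤ m ∧ v j = v i := ⟨i, hi, rfl⟩
    show (if h : ∃ j, j ≤ m ∧ v j = v i then a h.choose else 0) = a i
    rw [dif_pos h]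
    congr 1
    exact hinj _ h.choose_spec.1 i hi h.choose_spec.2
  refine ⟨η, fun ω => ?_⟩
  have hov : ∀ i ≤ m, ov (sq N) η ω (v i) = a i := by
    intro i hi
    have h1 : v i ∈ sq N := by
      have := hin i hi
      rwa [Finset.mem_coe] at this
    show (if v i ∈ sq N then η (v i) else ω (v i)) = a i
    rw [if_pos h1, hη i hi]
  have hray : ∀ i ≤ m, ray (ov (sq N) η ω) s i = (v i, d i) := by
    intro i
    induction i with
    | zero =>
      intro _
      rw [ray_zero]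
      exact Prod.ext h0.symm hd0.symm
    | succ i ih =>
      intro hi
      rw [ray_succ, ih (by omega)]
      show (v i + vec (turn (ov (sq N) η ω (v i)) (d i)), turn (ov (sq N) η ω (v i)) (d i)) = _
      rw [hov i (by omega), ha i (by omega), hstep i (by omega)]
  rw [ray_succ, hray m le_rfl]
  show (v m + vec (turn (ov (sq N) η ω (v m)) (d m)), turn (ov (sq N) η ω (v m)) (d m)) = _
  rw [hov m le_rfl, ha m le_rfl, hdm, hm, vec_opp, ← sub_eq_add_neg]
  rfl

end Jnx

theorem thm_Jn : St_Jn := by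
  intro N s t hs ht hne
  obtain ⟨⟨x0, y0⟩, ds⟩ := s
  obtain ⟨⟨x1, y1⟩, dt⟩ := t
  have hs1 : (x0, y0) ∈ sq N := by
    have := hs.1
    rwa [Finset.mem_coe] at this
  have ht1 : (x1, y1) ∈ sq N := by
    have := ht.1
    rwa [Finset.mem_coe] at this
  simp only [sq, Finset.mem_product, Finset.mem_Icc] at hs1 ht1
  obtain ⟨⟨p1, p2⟩, p3, p4⟩ := hs1
  obtain ⟨⟨q1, q2⟩, q3, q4⟩ := ht1
  obtain ⟨sx, dx, hdx, hsx⟩ : ∃ (sx : ℤ) (dx : Dir), (vec dx : ℤ × ℤ) = (sx, 0) ∧
      ((sx = 1 ∧ x0 ≤ x1) ∨ (sx = -1 ∧ x1 ≤ x0)) := by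
    rcases le_total x0 x1 with h | h
    · exact ⟨1, Dir.E, rfl, Or.inl ⟨rfl, h⟩⟩
    · exact ⟨-1, Dir.W, rfl, Or.inr ⟨rfl, h⟩⟩
  obtain ⟨sy, dy, hdy, hsy⟩ : ∃ (sy : ℤ) (dy : Dir), (vec dy : ℤ × ℤ) = (0, sy) ∧
      ((sy = 1 ∧ y0 ≤ y1) ∨ (sy = -1 ∧ y1 ≤ y0)) := by
    rcases le_total y0 y1 with h | h
    · exact ⟨1, Dir.N, rfl, Or.inl ⟨rfl, h⟩⟩
    · exact ⟨-1, Dir.S, rfl, Or.inr ⟨rfl, h⟩⟩
  obtain ⟨a, ha⟩ : ∃ a : ℕ, a = (x1 - x0).natAbs := ⟨_, rfl⟩
  obtain ⟨b, hb⟩ : ∃ b : ℕ, b = (y1 - y0).natAbs := ⟨_, rfl⟩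
  have hxa : x0 + sx * a = x1 := by
    rcases hsx with ⟨h, h'⟩ | ⟨h, h'⟩ <;> subst h <;> omega
  have hyb : y0 + sy * b = y1 := by
    rcases hsy with ⟨h, h'⟩ | ⟨h, h'⟩ <;> subst h <;> omega
  have hxin : ∀ i : ℕ, i ≤ a → -(N : ℤ) ≤ x0 + sx * i ∧ x0 + sx * i ≤ N := by
    intro i hi
    rcases hsx with ⟨h, h'⟩ | ⟨h, h'⟩ <;> subst h <;> omega
  have hyin : ∀ i : ℕ, i ≤ b → -(N : ℤ) ≤ y0 + sy * i ∧ y0 + sy * i ≤ N := by
    intro i hi
    rcases hsy with ⟨h, h'⟩ | ⟨h, h'⟩ <;> subst h <;> omega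
  have hxi : ∀ i j : ℕ, x0 + sx * i = x0 + sx * j → i = j := by
    intro i j hij
    rcases hsx with ⟨h, h'⟩ | ⟨h, h'⟩ <;> subst h <;> omega
  have hyi : ∀ i j : ℕ, y0 + sy * i = y0 + sy * j → i = j := by
    intro i j hij
    rcases hsy with ⟨h, h'⟩ | ⟨h, h'⟩ <;> subst h <;> omega
  let v : ℕ → ℤ × ℤ := fun i => (x0 + sx * (min i a : ℕ), y0 + sy * (i - a : ℕ))
  let d : ℕ → Dir := fun i => if i = 0 then ds else if i ≤ a then dx else
    if i ≤ a + b then dy else dt.opp
  obtain ⟨η, hη⟩ := Jnx.core N ((x0, y0), ds) ((x1, y1), dt) hs ht hne (a + b) v d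
    (by show (x0 + sx * (min 0 a : ℕ), y0 + sy * (0 - a : ℕ)) = (x0, y0); simp)
    (by
      show (x0 + sx * (min (a + b) a : ℕ), y0 + sy * (a + b - a : ℕ)) = (x1, y1)
      rw [Nat.min_eq_right (by omega), Nat.add_sub_cancel_left, hxa, hyb])
    rfl
    (by
      show (if a + b + 1 = 0 then ds else if a + b + 1 ≤ a then dx else
        if a + b + 1 ≤ a + b then dy else dt.opp) = dt.opp
      rw [if_neg (by omega), if_neg (by omega), if_neg (by omega)])
    (by
      intro i hi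
      rw [Finset.mem_coe]
      show (x0 + sx * (min i a : ℕ), y0 + sy * (i - a : ℕ)) ∈ sq N
      have e1 := hxin (min i a) (by omega)
      have e2 := hyin (i - a) (by omega)
      simp only [sq, Finset.mem_product, Finset.mem_Icc]
      exact ⟨e1, e2⟩)
    (by
      intro i hi
      show (x0 + sx * (min (i + 1) a : ℕ), y0 + sy * (i + 1 - a : ℕ)) =
        (x0 + sx * (min i a : ℕ), y0 + sy * (i - a : ℕ)) +
          vec (if i + 1 = 0 then ds else if i + 1 ≤ a then dx else
            if i + 1 ≤ a + b then dy else dt.opp)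
      rw [if_neg (by omega)]
      by_cases h : i + 1 ≤ a
      · rw [if_pos h, hdx, Nat.min_eq_left h, Nat.min_eq_left (by omega),
          show i + 1 - a = 0 by omega, show i - a = 0 by omega]
        refine Prod.ext ?_ ?_
        · show x0 + sx * ((i + 1 : ℕ) : ℤ) = x0 + sx * (i : ℤ) + sx
          push_cast
          ring
        · show y0 + sy * ((0 : ℕ) : ℤ) = y0 + sy * ((0 : ℕ) : ℤ) + 0
          ring
      · rw [if_neg h, if_pos (by omega), hdy, Nat.min_eq_right (by omega),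
          Nat.min_eq_right (by omega)]
        obtain ⟨k, hk⟩ : ∃ k, i = a + k := ⟨i - a, by omega⟩
        rw [show i + 1 - a = k + 1 by omega, show i - a = k by omega]
        refine Prod.ext ?_ ?_
        · show x0 + sx * (a : ℤ) = x0 + sx * (a : ℤ) + 0
          ring
        · show y0 + sy * ((k + 1 : ℕ) : ℤ) = y0 + sy * (k : ℤ) + sy
          push_cast
          ring)
    (by
      intro i hi j hj hij
      have hij' : (x0 + sx * (min i a : ℕ), y0 + sy * (i - a : ℕ)) =
        (x0 + sx * (min j a : ℕ), y0 + sy * (j - a : ℕ)) := hij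
      have e1 := hxi _ _ (Prod.ext_iff.1 hij').1
      have e2 := hyi _ _ (Prod.ext_iff.1 hij').2
      omega)
  exact ⟨η, fun ω => ⟨a + b + 1, hη ω⟩⟩

end Pool.Agent.MHF
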