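import Pool.Agent.MHF.St
import Pool.Agent.Mir.Prob

/-!
# MHF, module Ln: unbounded rays cross every line infinitely often
-/

set_option autoImplicit false

open MeasureTheory Filter Mir

noncomputable section

namespace Pool.Agent.MHF

/-- the event of `St_Hp` -/
def Lnx.Hpe (ω : Conf) : Prop := ∀ s : State, s.2 ≠ Dir.S →
  ¬ ∀ n, (s.1 - vec s.2).2 ≤ (ray ω s n).1.2 ∧ (ray ω s n).1 ≠ s.1 - vec s.2

/-- no unbounded ray stays above a line -/
theorem Lnx.core (ω : Conf) (hω : Lnx.Hpe ω) (s : State)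
    (hb : ∀ B : Finset (ℤ × ℤ), ∀ᶠ n in atTop, (ray ω s n).1 ∉ B) (h : ℤ) (n₀ : ℕ)
    (hn : ∀ n, n₀ ≤ n → h + 1 ≤ (ray ω s n).1.2) : False := by
  obtain ⟨m, ⟨n₁, hn₁, hm⟩, hmin⟩ := Int.exists_least_of_bdd
    (P := fun z => ∃ n, n₀ ≤ n ∧ (ray ω s n).1.2 = z)
    ⟨h + 1, fun z ⟨n, hn1, hn2⟩ => by rw [← hn2]; exact hn n hn1⟩
    ⟨(ray ω s n₀).1.2, n₀, le_rfl, rfl⟩
  have hmin' : ∀ n, n₀ ≤ n → m ≤ (ray ω s n).1.2 := fun n hn => hmin _ ⟨n, hn, rfl⟩
  obtain ⟨N, hN⟩ := eventually_atTop.mp (hb {(ray ω s n₁).1})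
  have hN' : ∀ n, N ≤ n → (ray ω s n).1 ≠ (ray ω s n₁).1 := by
    intro n hn h1
    exact hN n hn (by rw [h1]; exact Finset.mem_singleton_self _)
  have hlt : n₁ < N := by
    by_contra h1
    push Not at h1
    exact hN' n₁ h1 rfl
  classical
  set n₂ := Nat.findGreatest (fun n => (ray ω s n).1 = (ray ω s n₁).1) N with hn₂
  have h2 : (ray ω s n₂).1 = (ray ω s n₁).1 :=
    Nat.findGreatest_spec (P := fun n => (ray ω s n).1 = (ray ω s n₁).1) hlt.le rfl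
  have h3 : n₁ ≤ n₂ := Nat.le_findGreatest hlt.le rfl
  have h4 : ∀ n, n₂ < n → (ray ω s n).1 ≠ (ray ω s n₁).1 := by
    intro n hn
    rcases le_or_gt n N with h5 | h5
    · exact Nat.findGreatest_is_greatest hn h5
    · exact hN' n h5.le
  have h5 := ray_prev ω s n₂
  apply hω (ray ω s (n₂ + 1))
  · intro h6
    rw [h6, h2] at h5
    have h7 := hmin' (n₂ + 1) (by omega)
    have h8 : (ray ω s (n₂ + 1)).1.2 - (-1) = (ray ω s n₁).1.2 := congrArg Prod.snd h5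
    rw [hm] at h8
    omega
  · intro n
    rw [h5, h2, hm, ← ray_add]
    exact ⟨hmin' _ (by omega), h4 _ (by omega)⟩

/-- the side of the line does not change without a crossing -/
theorem Lnx.side (ω : Conf) (h : ℤ) (t : State) (hc : ¬ Cr h (step ω t)) :
    h + 1 ≤ (step ω t).1.2 ↔ h + 1 ≤ t.1.2 := by
  unfold Cr at hc
  push Not at hc
  obtain ⟨hc1, hc2⟩ := hc
  simp only [step] at hc1 hc2 ⊢
  generalize turn (ω t.1) t.2 = e at hc1 hc2 ⊢
  cases e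
  · have h1 := hc1 rfl
    simp only [vec, Prod.snd_add] at h1 ⊢
    omega
  · simp only [vec, Prod.snd_add]
    omega
  · have h1 := hc2 rfl
    simp only [vec, Prod.snd_add] at h1 ⊢
    omega
  · simp only [vec, Prod.snd_add]
    omega

theorem Lnx.det (ω : Conf) (hω : Lnx.Hpe ω) (hω' : Lnx.Hpe (sw (rf (sw ω)))) (s : State)
    (hb : ∀ B : Finset (ℤ × ℤ), ∀ᶠ n in atTop, (ray ω s n).1 ∉ B) (h : ℤ) :
    ∃ᶠ n in atTop, Cr h (ray ω s n) := by
  intro hev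
  obtain ⟨n₀, hn₀⟩ := eventually_atTop.mp hev
  have hside : ∀ k, h + 1 ≤ (ray ω s (n₀ + k)).1.2 ↔ h + 1 ≤ (ray ω s n₀).1.2 := by
    intro k
    induction k with
    | zero => rfl
    | succ k ih =>
      rw [← ih, ← add_assoc, ray_succ]
      apply Lnx.side
      rw [← ray_succ]
      exact hn₀ _ (by omega)
  by_cases h1 : h + 1 ≤ (ray ω s n₀).1.2
  · refine Lnx.core ω hω s hb h n₀ fun n hn => ?_
    have h2 := (hside (n - n₀)).mpr h1
    rwa [Nat.add_sub_cancel' hn] at h2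
  · have hray : ∀ n, ray (sw (rf (sw ω))) (swS (rfS (swS s))) n = swS (rfS (swS (ray ω s n))) := by
      intro n
      rw [ray_sw, ray_rf, ray_sw]
    have hpos : ∀ n, (ray (sw (rf (sw ω))) (swS (rfS (swS s))) n).1 =
        ((ray ω s n).1.1, -(ray ω s n).1.2) := by
      intro n
      rw [hray]
      rfl
    refine Lnx.core (sw (rf (sw ω))) hω' (swS (rfS (swS s))) ?_ (-h - 1) n₀ fun n hn => ?_
    · intro B
      filter_upwards [hb (B.image fun v => (v.1, -v.2))] with n hn h3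
      apply hn
      rw [Finset.mem_image]
      refine ⟨_, h3, ?_⟩
      rw [hpos]
      simp
    · have h2 : ¬ h + 1 ≤ (ray ω s (n₀ + (n - n₀))).1.2 := fun h3 => h1 ((hside (n - n₀)).mp h3)
      rw [Nat.add_sub_cancel' hn] at h2
      rw [hpos]
      show -h - 1 + 1 ≤ -(ray ω s n).1.2
      omega

theorem thm_Ln (h1 : St_Hp) (h2 : St_Bas1) (h3 : St_Sym) : St_Ln := by
  intro p hp0 hp1
  have e1 : ∀ᵐ ω ∂(mir p), Lnx.Hpe ω := h1 p hp0 hp1
  have hsw := (sw_preserving hp0.le hp1.le).quasiMeasurePreserving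
  have hrf := (rf_preserving hp0.le hp1.le).quasiMeasurePreserving
  have e2 : ∀ᵐ ω ∂(mir p), Lnx.Hpe (sw ω) := hsw.ae e1
  have e3 : ∀ᵐ ω ∂(mir p), Lnx.Hpe (sw (rf ω)) := hrf.ae e2
  have e4 : ∀ᵐ ω ∂(mir p), Lnx.Hpe (sw (rf (sw ω))) := hsw.ae e3
  filter_upwards [e1, e2, e3, e4] with ω g1 g2 g3 g4 s hs h
  constructor
  · exact Lnx.det ω g1 g4 s (fun B => (h2 ω).2.2.2.2.2.2.2.2.2.2.2.2 s B hs) h
  · have hs' : Unb (sw ω) (swS s) := ((h3.2.2.1 ω s s).1).mpr hs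
    refine Lnx.det (sw ω) g2 ?_ (swS s) (fun B => (h2 (sw ω)).2.2.2.2.2.2.2.2.2.2.2.2 _ B hs') h
    have h5 : sw (sw ω) = ω := rfl
    rw [h5]
    exact g3

end Pool.Agent.MHF
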