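import Pool.Agent.MHF.St
import Pool.Agent.Mir.Prob

/-!
# MHF Msb: measurability
-/

set_option autoImplicit false

open MeasureTheory Filter Mir

noncomputable section

namespace Pool.Agent.MHF

namespace Msbx

theorem meas_eq (s t : State) (m n : ℕ) :
    MeasurableSet {ω : Conf | ray ω s m = ray ω t n} := by
  have hc : Countable State := countable_state (A := ℤ)
  have h : {ω : Conf | ray ω s m = ray ω t n} =
      ⋃ u : State, {ω | ray ω s m = u} ∩ {ω | ray ω t n = u} := by
    ext ω
    simp only [Set.mem_iUnion]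
    constructor
    · intro h1
      exact ⟨ray ω t n, h1, rfl⟩
    · rintro ⟨u, h1, h2⟩
      exact Eq.trans h1 (Eq.symm h2)
  rw [h]
  exact MeasurableSet.iUnion fun u => (meas_ray s u m).inter (meas_ray t u n)

theorem meas_ev (s : State) (Q : State → Prop) :
    MeasurableSet {ω : Conf | ∀ᶠ n in atTop, Q (ray ω s n)} := by
  have h : {ω : Conf | ∀ᶠ n in atTop, Q (ray ω s n)} =
      ⋃ N : ℕ, ⋂ n : ℕ, ⋂ (_ : N ≤ n), {ω : Conf | Q (ray ω s n)} := by
    ext ω
    simp only [Set.mem_iUnion, Set.mem_iInter]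
    exact eventually_atTop
  rw [h]
  exact MeasurableSet.iUnion fun N => MeasurableSet.iInter fun n => MeasurableSet.iInter fun _ =>
    meas_ray_prop s n Q

theorem meas_all (s : State) (Q : ℤ → State → Prop) :
    MeasurableSet {ω : Conf | ∀ c : ℤ, ∀ᶠ n in atTop, Q c (ray ω s n)} := by
  have h : {ω : Conf | ∀ c : ℤ, ∀ᶠ n in atTop, Q c (ray ω s n)} =
      ⋂ c : ℤ, {ω : Conf | ∀ᶠ n in atTop, Q c (ray ω s n)} := by
    ext ω
    simp only [Set.mem_iInter]
    exact Iff.rfl
  rw [h]
  exact MeasurableSet.iInter fun c => meas_ev s (Q c)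

theorem meas_unb (h : St_Bas1) (s : State) : MeasurableSet {ω : Conf | Unb ω s} := by
  have h1 : {ω : Conf | Unb ω s} =
      ⋂ m : ℕ, ⋂ n : ℕ, ⋂ (_ : m ≠ n), {ω : Conf | ray ω s m = ray ω s n}ᶜ := by
    ext ω
    simp only [Set.mem_iInter]
    constructor
    · intro h2 m n hmn h3
      exact hmn (((h ω).1 s).1 h2 h3)
    · intro h2
      refine ((h ω).1 s).2 fun m n hmn => ?_
      by_contra h3
      exact h2 m n h3 hmn
  rw [h1]
  exact MeasurableSet.iInter fun m => MeasurableSet.iInter fun n => MeasurableSet.iInter fun _ =>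
    (meas_eq s s m n).compl

end Msbx

open Msbx in
theorem thm_Msb (h : St_Bas1) : St_Msb := by
  refine ⟨meas_unb h, fun k s => ?_, fun k s => ?_, fun s t => ?_⟩
  · exact (meas_unb h s).inter (meas_all s fun c u => Cr k u → u.1.1 < c)
  · exact (meas_unb h s).inter (meas_all s fun c u => Cr k u → c < u.1.1)
  · have h1 : {ω : Conf | SE ω s t} = ⋃ m : ℕ, ⋃ n : ℕ, {ω : Conf | ray ω s m = ray ω t n} := by
      ext ω
      simp only [Set.mem_iUnion]
      exact Iff.rfl
    rw [h1]
    exact MeasurableSet.iUnion fun m => MeasurableSet.iUnion fun n => meas_eq s t m n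

end Pool.Agent.MHF
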