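import Pool.Agent.MHF.St
import Pool.Agent.Mir.Prob

/-!
# MHF, module Mt: mass transport, no path is of type W in both directions
-/

set_option autoImplicit false

open MeasureTheory Filter Mir

noncomputable section

namespace Pool.Agent.MHF

namespace Mtx

/-- the upward edge which crosses the line `h` in the column `x` -/
def ee (h x : ℤ) : State := ((x, h + 1), Dir.N)

/-- the path through the column `x` is of type W in both directions -/
def Gd (ω : Conf) (h x : ℤ) : Prop := Wt ω h (ee h x) ∧ Wt ω h (rev (ee h x))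

/-- `x` is the largest column of a crossing of its path -/
def Top (ω : Conf) (h y : ℤ) : Prop := Gd ω h y ∧ ∀ x, SP ω (ee h y) (ee h x) → x ≤ y

/-- mass transport -/
def A (h x y : ℤ) : Set Conf := {ω | Top ω h y ∧ SP ω (ee h x) (ee h y)}

theorem rev_ee (h x : ℤ) : rev (ee h x) = ((x, h), Dir.S) := by
  simp [rev, ee, vec, Dir.opp]

theorem cr_cases {h : ℤ} {s : State} (hs : Cr h s) : s = ee h s.1.1 ∨ s = rev (ee h s.1.1) := by
  obtain ⟨⟨x, y⟩, d⟩ := s
  rcases hs with ⟨h1, h2⟩ | ⟨h1, h2⟩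
  · left
    simp only at h1 h2
    subst h1; subst h2
    rfl
  · right
    simp only at h1 h2
    subst h1; subst h2
    rw [rev_ee]

theorem cr_ee (h x : ℤ) : Cr h (ee h x) := Or.inl ⟨rfl, rfl⟩

theorem cr_rev_ee (h x : ℤ) : Cr h (rev (ee h x)) := by
  rw [rev_ee]; exact Or.inr ⟨rfl, rfl⟩

theorem col_ee (h x : ℤ) : (ee h x).1.1 = x := rfl

theorem col_rev_ee (h x : ℤ) : (rev (ee h x)).1.1 = x := by rw [rev_ee]

/-- `SP` is measurable -/
theorem meas_SP (hOrb : St_Orb) (s t : State) : MeasurableSet {ω : Conf | SP ω s t} := by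
  have e : {ω : Conf | SP ω s t} = ⋃ n : ℕ, ({ω : Conf | ray ω s n = t} ∪
      ({ω : Conf | ray ω s n = rev t} ∪ ({ω : Conf | ray ω (rev s) n = t} ∪
        {ω : Conf | ray ω (rev s) n = rev t}))) := by
    ext ω
    simp only [Set.mem_setOf_eq, Set.mem_iUnion, Set.mem_union]
    exact hOrb.2.2.1 ω s t
  rw [e]
  exact MeasurableSet.iUnion fun n => (meas_ray _ _ _).union ((meas_ray _ _ _).union
    ((meas_ray _ _ _).union (meas_ray _ _ _)))

theorem meas_Gd (hMsb : St_Msb) (h x : ℤ) : MeasurableSet {ω : Conf | Gd ω h x} :=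
  (hMsb.2.1 h _).inter (hMsb.2.1 h _)

theorem meas_Top (hMsb : St_Msb) (hOrb : St_Orb) (h y : ℤ) :
    MeasurableSet {ω : Conf | Top ω h y} := by
  have e : {ω : Conf | Top ω h y} = {ω : Conf | Gd ω h y} ∩
      ⋂ x : ℤ, ({ω : Conf | SP ω (ee h y) (ee h x)}ᶜ ∪ {_ω : Conf | x ≤ y}) := by
    ext ω
    simp only [Top, Set.mem_setOf_eq, Set.mem_inter_iff, Set.mem_iInter, Set.mem_union,
      Set.mem_compl_iff, imp_iff_not_or]
  rw [e]
  exact (meas_Gd hMsb h y).inter (MeasurableSet.iInter fun x =>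
    (meas_SP hOrb _ _).compl.union (MeasurableSet.const _))

theorem meas_A (hMsb : St_Msb) (hOrb : St_Orb) (h x y : ℤ) : MeasurableSet (A h x y) :=
  (meas_Top hMsb hOrb h y).inter (meas_SP hOrb _ _)

theorem disj_A (hOrb : St_Orb) (h x : ℤ) : Pairwise (Function.onFun Disjoint fun y => A h x y) := by
  intro y y' hne
  rw [Function.onFun, Set.disjoint_left]
  rintro ω ⟨⟨_, h1⟩, h2⟩ ⟨⟨_, h3⟩, h4⟩
  obtain ⟨_, hs, ht⟩ := hOrb.2.1 ω
  have h5 : SP ω (ee h y) (ee h y') := ht _ _ _ (hs _ _ h2) h4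
  exact hne (le_antisymm (h3 _ (hs _ _ h5)) (h1 _ h5))

theorem trS_ee (z h x : ℤ) : trS (z, 0) (ee h x) = ee h (x + z) := by
  simp [trS, ee]

theorem tr_A (hSym : St_Sym) (hOrb : St_Orb) (h x y z : ℤ) :
    tr (z, 0) ⁻¹' (A h (x + z) (y + z)) = A h x y := by
  have hsp : ∀ (ω : Conf) (a b : ℤ), SP (tr (z, 0) ω) (ee h (a + z)) (ee h (b + z)) ↔
      SP ω (ee h a) (ee h b) := by
    intro ω a b
    rw [← trS_ee, ← trS_ee]
    exact hOrb.2.2.2.2 _ _ _ _
  have hgd : ∀ (ω : Conf) (a : ℤ), Gd (tr (z, 0) ω) h (a + z) ↔ Gd ω h a := by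
    intro ω a
    unfold Gd
    rw [← trS_ee, ← hSym.2.2.2.1]
    have h1 := (hSym.1 (z, 0) ω (ee h a) (ee h a) h).2.1
    have h2 := (hSym.1 (z, 0) ω (rev (ee h a)) (ee h a) h).2.1
    simp only [add_zero] at h1 h2
    rw [h1, h2]
  have htop : ∀ (ω : Conf) (a : ℤ), Top (tr (z, 0) ω) h (a + z) ↔ Top ω h a := by
    intro ω a
    unfold Top
    rw [hgd]
    constructor
    · rintro ⟨h1, h2⟩
      refine ⟨h1, fun x hx => ?_⟩
      have := h2 (x + z) ((hsp ω a x).mpr hx)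
      linarith
    · rintro ⟨h1, h2⟩
      refine ⟨h1, fun x hx => ?_⟩
      have := h2 (x - z) ((hsp ω a (x - z)).mp (by simpa using hx))
      linarith
  ext ω
  show (Top (tr (z, 0) ω) h (y + z) ∧ SP (tr (z, 0) ω) (ee h (x + z)) (ee h (y + z))) ↔ _
  rw [htop, hsp]
  rfl

/-- the columns of the crossings of an unbounded path which crosses infinitely often -/
theorem inf_cols (hBas : St_Bas1) (hOrb : St_Orb) (ω : Conf) (h : ℤ) (s : State) (hs : Unb ω s)
    (hf : ∃ᶠ n in atTop, Cr h (ray ω s n)) : {x : ℤ | SP ω s (ee h x)}.Infinite := by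
  intro hfin
  have hF : ((fun x => ee h x) '' {x : ℤ | SP ω s (ee h x)} ∪
      (fun x => rev (ee h x)) '' {x : ℤ | SP ω s (ee h x)}).Finite :=
    (hfin.image _).union (hfin.image _)
  have h1 := (hBas ω).2.2.2.1 s hF.toFinset hs
  obtain ⟨n, hn, hc⟩ := (h1.and_frequently hf).exists
  apply hn
  rw [Set.Finite.mem_toFinset]
  rcases cr_cases hc with h2 | h2
  · left
    refine ⟨(ray ω s n).1.1, ?_, h2.symm⟩
    exact (hOrb.2.2.1 ω s _).mpr ⟨n, Or.inl h2⟩
  · right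
    refine ⟨(ray ω s n).1.1, ?_, h2.symm⟩
    exact (hOrb.2.2.1 ω s _).mpr ⟨n, Or.inr (Or.inl h2)⟩

/-- the columns of the crossings of a path of type W are bounded above -/
theorem bdd_cols (hOrb : St_Orb) (ω : Conf) (h x : ℤ) (hg : Gd ω h x) :
    ∃ b : ℤ, ∀ x' : ℤ, SP ω (ee h x) (ee h x') → x' ≤ b := by
  have key : ∀ s : State, Wt ω h s → ∃ b : ℤ, ∀ n, Cr h (ray ω s n) → (ray ω s n).1.1 ≤ b := by
    intro s hs
    obtain ⟨n₀, hn₀⟩ := eventually_atTop.mp (hs.2 0)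
    refine ⟨∑ i ∈ Finset.range n₀, |(ray ω s i).1.1|, ?_⟩
    intro n hn
    by_cases hlt : n < n₀
    · calc (ray ω s n).1.1 ≤ |(ray ω s n).1.1| := le_abs_self _
        _ ≤ _ := Finset.single_le_sum (f := fun i => |(ray ω s i).1.1|)
          (fun i _ => abs_nonneg _) (Finset.mem_range.mpr hlt)
    · have h1 := hn₀ n (not_lt.mp hlt) hn
      have h2 : 0 ≤ ∑ i ∈ Finset.range n₀, |(ray ω s i).1.1| :=
        Finset.sum_nonneg fun i _ => abs_nonneg _
      linarith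
  obtain ⟨b1, hb1⟩ := key _ hg.1
  obtain ⟨b2, hb2⟩ := key _ hg.2
  refine ⟨max b1 b2, ?_⟩
  intro x' hx'
  obtain ⟨n, hn⟩ := (hOrb.2.2.1 ω _ _).mp hx'
  rcases hn with hn | hn | hn | hn
  · have := hb1 n (by rw [hn]; exact cr_ee h x')
    rw [hn, col_ee] at this
    exact le_max_of_le_left this
  · have := hb1 n (by rw [hn]; exact cr_rev_ee h x')
    rw [hn, col_rev_ee] at this
    exact le_max_of_le_left this
  · have := hb2 n (by rw [hn]; exact cr_ee h x')
    rw [hn, col_ee] at this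
    exact le_max_of_le_right this
  · have := hb2 n (by rw [hn]; exact cr_rev_ee h x')
    rw [hn, col_rev_ee] at this
    exact le_max_of_le_right this

/-- a path of type W in both directions has a top -/
theorem exists_top (hOrb : St_Orb) (ω : Conf) (h x : ℤ) (hg : Gd ω h x) : ∃ y, Top ω h y := by
  obtain ⟨b, hb⟩ := bdd_cols hOrb ω h x hg
  obtain ⟨hr, hs, ht⟩ := hOrb.2.1 ω
  obtain ⟨y, hy1, hy2⟩ := Int.exists_greatest_of_bdd (P := fun x' => SP ω (ee h x) (ee h x'))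
    ⟨b, hb⟩ ⟨x, hr _⟩
  refine ⟨y, ?_, fun x' hx' => hy2 x' (ht _ _ _ hy1 hx')⟩
  exact (hOrb.2.2.2.1 ω _ _ h hy1).mp hg

end Mtx

open Mtx in
/-- **Mt** -/
theorem thm_Mt (hLn : St_Ln) (hBas : St_Bas1) (hSym : St_Sym) (hMsb : St_Msb) (hOrb : St_Orb) :
    St_Mt := by
  intro p hp0 hp1 h
  have hP : IsProbabilityMeasure (mir p) := mir_isProb hp0.le hp1.le
  have hln := hLn p hp0 hp1
  -- the expected number of `x` which send mass to `0`
  have hsum : ∑' x : ℤ, mir p (A h x 0) ≤ 1 := by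
    have e1 : ∀ x : ℤ, mir p (A h x 0) = mir p (A h 0 (-x)) := by
      intro x
      have h1 := (tr_preserving hp0.le hp1.le ((-x, 0) : ℤ × ℤ)).measure_preimage
        (meas_A hMsb hOrb h (x + -x) (0 + -x)).nullMeasurableSet
      rw [tr_A hSym hOrb h x 0 (-x)] at h1
      rw [h1]
      simp
    calc ∑' x : ℤ, mir p (A h x 0) = ∑' x : ℤ, mir p (A h 0 (-x)) := by
          exact tsum_congr e1
      _ = ∑' y : ℤ, mir p (A h 0 y) := (Equiv.neg ℤ).tsum_eq (fun y => mir p (A h 0 y))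
      _ = mir p (⋃ y : ℤ, A h 0 y) :=
          (measure_iUnion (disj_A hOrb h 0) (fun y => meas_A hMsb hOrb h 0 y)).symm
      _ ≤ 1 := prob_le_one
  have hint : ∫⁻ ω, ∑' x : ℤ, (A h x 0).indicator (fun _ => (1 : ENNReal)) ω ∂(mir p) ≤ 1 := by
    rw [lintegral_tsum]
    · calc _ = ∑' x : ℤ, mir p (A h x 0) := by
            apply tsum_congr
            intro x
            rw [lintegral_indicator (meas_A hMsb hOrb h x 0)]
            simp
        _ ≤ 1 := hsum
    · intro x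
      exact (measurable_const.indicator (meas_A hMsb hOrb h x 0)).aemeasurable
  have hfin : ∀ᵐ ω ∂(mir p),
      ∑' x : ℤ, (A h x 0).indicator (fun _ => (1 : ENNReal)) ω < ⊤ := by
    apply ae_lt_top
    · exact Measurable.ennreal_tsum fun x =>
        measurable_const.indicator (meas_A hMsb hOrb h x 0)
    · exact ne_top_of_le_ne_top ENNReal.one_ne_top hint
  have htop0 : ∀ᵐ ω ∂(mir p), ¬ Top ω h 0 := by
    filter_upwards [hln, hfin] with ω h1 h2 h3
    have hinf := inf_cols hBas hOrb ω h (ee h 0) h3.1.1.1 (h1 _ h3.1.1.1 h).1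
    apply h2.ne
    have hone : ∀ x : ℤ, SP ω (ee h 0) (ee h x) →
        (A h x 0).indicator (fun _ => (1 : ENNReal)) ω = 1 := by
      intro x hx
      rw [Set.indicator_of_mem]
      exact ⟨h3, (hOrb.2.1 ω).2.1 _ _ hx⟩
    rw [eq_top_iff]
    have : Infinite {x : ℤ | SP ω (ee h 0) (ee h x)} := hinf.to_subtype
    calc (⊤ : ENNReal) = ∑' x : {x : ℤ | SP ω (ee h 0) (ee h x)}, (1 : ENNReal) := by
          rw [ENNReal.tsum_const_eq_top_of_ne_zero one_ne_zero]
      _ = ∑' x : {x : ℤ | SP ω (ee h 0) (ee h x)},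
            (A h x 0).indicator (fun _ => (1 : ENNReal)) ω :=
          tsum_congr fun x => (hone x x.2).symm
      _ ≤ _ := ENNReal.tsum_comp_le_tsum_of_injective Subtype.val_injective _
  have htop : ∀ᵐ ω ∂(mir p), ∀ y : ℤ, ¬ Top ω h y := by
    rw [ae_all_iff]
    intro y
    have h1 := (tr_preserving hp0.le hp1.le ((-y, 0) : ℤ × ℤ)).quasiMeasurePreserving.ae htop0
    filter_upwards [h1] with ω h2 h3
    apply h2
    have h4 : ω ∈ A h y y := ⟨h3, (hOrb.2.1 ω).1 _⟩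
    rw [← tr_A hSym hOrb h y y (-y)] at h4
    have h5 := h4.1
    simpa using h5
  filter_upwards [hln, htop] with ω h1 h2
  rintro ⟨s, hs1, hs2⟩
  obtain ⟨n, hn⟩ := (h1 s hs1.1 h).1.exists
  have hsp : SP ω s (ee h (ray ω s n).1.1) := by
    rcases cr_cases hn with h3 | h3
    · exact (hOrb.2.2.1 ω s _).mpr ⟨n, Or.inl h3⟩
    · exact (hOrb.2.2.1 ω s _).mpr ⟨n, Or.inr (Or.inl h3)⟩
  have hg : Gd ω h (ray ω s n).1.1 := (hOrb.2.2.2.1 ω _ _ h hsp).mp ⟨hs1, hs2⟩
  obtain ⟨y, hy⟩ := exists_top hOrb ω h _ hg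
  exact h2 y hy

end Pool.Agent.MHF
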