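import Pool.Agent.MHF.St
import Pool.Agent.Mir.Prob

/-!
# MHF, module Orb: paths as orbits of a permutation
-/

set_option autoImplicit false

open MeasureTheory Filter Mir

noncomputable section

namespace Pool.Agent.MHF

namespace Orbx

theorem ray_pow (ω : Conf) (s : State) (n : ℕ) : ray ω s n = (stepE ω ^ n) s := by
  induction n with
  | zero => rfl
  | succ n ih =>
    rw [ray_succ, ih, pow_succ', Equiv.Perm.mul_apply]
    rfl

theorem inv_pow (ω : Conf) (s : State) (n : ℕ) :
    ((stepE ω)⁻¹ ^ n) s = rev (ray ω (rev s) n) := by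
  induction n with
  | zero => exact (rev_rev s).symm
  | succ n ih =>
    rw [ray_succ, pow_succ', Equiv.Perm.mul_apply, ih]
    show rev (step ω (rev (rev (ray ω (rev s) n)))) = rev (step ω (ray ω (rev s) n))
    rw [rev_rev]

theorem rev_eq_iff (s t : State) : rev s = t ↔ s = rev t := by
  constructor
  · intro h
    rw [← h, rev_rev]
  · intro h
    rw [h, rev_rev]

theorem same_iff (ω : Conf) (s t : State) : (stepE ω).SameCycle s t ↔
    ∃ n, ray ω s n = t ∨ ray ω (rev s) n = rev t := by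
  constructor
  · rintro ⟨i, hi⟩
    rcases Int.eq_nat_or_neg i with ⟨n, hn | hn⟩
    · refine ⟨n, Or.inl ?_⟩
      rw [hn, zpow_natCast] at hi
      rw [ray_pow, hi]
    · refine ⟨n, Or.inr ?_⟩
      rw [hn, zpow_neg, zpow_natCast, ← _root_.inv_pow, inv_pow, rev_eq_iff] at hi
      exact hi
  · rintro ⟨n, h | h⟩
    · refine ⟨(n : ℤ), ?_⟩
      rw [zpow_natCast, ← ray_pow, h]
    · refine ⟨-(n : ℤ), ?_⟩
      rw [zpow_neg, zpow_natCast, ← _root_.inv_pow, inv_pow, h, rev_rev]

theorem same_rev (ω : Conf) {s t : State} (h : (stepE ω).SameCycle s t) :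
    (stepE ω).SameCycle (rev s) (rev t) := by
  rw [same_iff] at h ⊢
  obtain ⟨n, h | h⟩ := h
  · exact ⟨n, Or.inr (by rw [rev_rev, rev_rev]; exact h)⟩
  · exact ⟨n, Or.inl h⟩

theorem sp_iff (ω : Conf) (s t : State) : SP ω s t ↔ ∃ n, ray ω s n = t ∨ ray ω s n = rev t ∨
    ray ω (rev s) n = t ∨ ray ω (rev s) n = rev t := by
  unfold SP
  rw [same_iff, same_iff]
  constructor
  · rintro (⟨n, h | h⟩ | ⟨n, h | h⟩)
    · exact ⟨n, Or.inl h⟩
    · exact ⟨n, Or.inr (Or.inr (Or.inr h))⟩
    · exact ⟨n, Or.inr (Or.inl h)⟩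
    · rw [rev_rev] at h
      exact ⟨n, Or.inr (Or.inr (Or.inl h))⟩
  · rintro ⟨n, h | h | h | h⟩
    · exact Or.inl ⟨n, Or.inl h⟩
    · exact Or.inr ⟨n, Or.inl h⟩
    · exact Or.inr ⟨n, Or.inr (by rw [rev_rev]; exact h)⟩
    · exact Or.inl ⟨n, Or.inr h⟩

theorem trS_rev (z : ℤ × ℤ) (s : State) : rev (trS z s) = trS z (rev s) := by
  unfold rev trS
  refine Prod.ext ?_ rfl
  show s.1 + z - vec s.2 = s.1 - vec s.2 + z
  abel

theorem trS_inj (z : ℤ × ℤ) {s t : State} : trS z s = trS z t ↔ s = t := by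
  constructor
  · intro h
    unfold trS at h
    rw [Prod.mk.injEq] at h
    exact Prod.ext (add_right_cancel h.1) h.2
  · intro h
    rw [h]

end Orbx

open Orbx

theorem thm_Orb (h1 : St_Bas1) : St_Orb := by
  refine ⟨ray_pow, ?_, sp_iff, ?_, ?_⟩
  · intro ω
    refine ⟨fun s => Or.inl (Equiv.Perm.SameCycle.refl _ _), ?_, ?_⟩
    · rintro s t (h | h)
      · exact Or.inl h.symm
      · refine Or.inr ?_
        have h2 := same_rev ω h.symm
        rwa [rev_rev] at h2
    · rintro s t u (h | h) (h' | h')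
      · exact Or.inl (h.trans h')
      · exact Or.inr (h.trans h')
      · exact Or.inr (h.trans (same_rev ω h'))
      · have h2 := same_rev ω h'
        rw [rev_rev] at h2
        exact Or.inl (h.trans h2)
  · intro ω s t h hst
    obtain ⟨-, -, -, -, hray, -, -, -, hse, hser, hty, -, -⟩ := h1 ω
    have key : ∀ (u : State) (n : ℕ), (Wt ω h (ray ω u n) ∧ Wt ω h (rev (ray ω u n))) ↔
        (Wt ω h u ∧ Wt ω h (rev u)) := by
      intro u n
      rw [(hray u n h).1, ← (hty _ _ h (hser _ _ (hse u n))).2.1]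
    rw [sp_iff] at hst
    obtain ⟨n, e | e | e | e⟩ := hst
    · have h2 := key s n
      rw [e] at h2
      exact h2.symm
    · have h2 := key s n
      rw [e, rev_rev] at h2
      rw [← h2]
      exact and_comm
    · have h2 := key (rev s) n
      rw [e, rev_rev] at h2
      rw [h2]
      exact and_comm
    · have h2 := key (rev s) n
      rw [e, rev_rev, rev_rev] at h2
      rw [and_comm, ← h2]
      exact and_comm
  · intro z ω s t
    rw [sp_iff, sp_iff]
    refine exists_congr fun n => ?_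
    rw [trS_rev, trS_rev, ray_tr, ray_tr, trS_inj, trS_inj, trS_inj, trS_inj]

end Pool.Agent.MHF
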