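import Pool.Agent.MHF.St

/-!
# Rejoining two ends (deterministic)
-/

set_option autoImplicit false

open MeasureTheory Filter Mir

noncomputable section

namespace Pool.Agent.MHF

/-- **Rej** -/
theorem thm_Rej (h1 : St_Bas1) (h2 : St_Bas2) (h3 : St_Jn) : St_Rej := by
  intro ω N s t hs ht hst hsN htN
  obtain ⟨n, hn1, hn2⟩ := h2.2 ω (sq N) s hs hsN
  obtain ⟨m, hm1, hm2⟩ := h2.2 ω (sq N) t ht htN
  have hne : rev (ray ω s n) ≠ rev (ray ω t m) := fun h => hst ⟨n, m, rev_inj h⟩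
  obtain ⟨η, hη⟩ := h3 N _ _ hn2 hm2 hne
  obtain ⟨k, hk⟩ := hη ω
  rw [rev_rev] at hk
  have hag : ∀ v, v ∉ sq N → ω v = ov (sq N) η ω v := by
    intro v hv
    simp only [ov, if_neg hv]
  obtain ⟨-, -, a3⟩ := h2.1 ω (ov (sq N) η ω) (sq N) (ray ω s n) hag hn1
  obtain ⟨-, -, b3⟩ := h2.1 ω (ov (sq N) η ω) (sq N) (ray ω t m) hag hm1
  obtain ⟨-, -, -, -, c, -⟩ := h1 ω
  obtain ⟨-, -, -, -, c', -⟩ := h1 (ov (sq N) η ω)
  refine ⟨η, ray ω s n, fun h => ?_⟩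
  have d := c' (rev (ray ω s n)) k h
  rw [hk] at d
  exact ⟨(a3 h).1.trans (c s n h).1, (a3 h).2.trans (c s n h).2,
    d.1.symm.trans ((b3 h).1.trans (c t m h).1), d.2.symm.trans ((b3 h).2.trans (c t m h).2)⟩

end Pool.Agent.MHF
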