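import Pool.Agent.MHF.St
import Pool.Agent.Mir.Prob

/-!
# MHF [Sym]: symmetries of the mirror model
-/

set_option autoImplicit false

open MeasureTheory Filter Mir

noncomputable section

namespace Pool.Agent.MHF

namespace Symx

theorem unb_iff {ω ω' : Conf} {σ : State → State} {f : ℤ × ℤ → ℤ × ℤ}
    (hf : Function.Injective f) (hσ : ∀ s, (σ s).1 = f s.1) (s : State)
    (hr : ∀ n, ray ω' (σ s) n = σ (ray ω s n)) : Unb ω' (σ s) ↔ Unb ω s := by
  unfold Unb
  have h1 : {v | ∃ n, (ray ω' (σ s) n).1 = v} = f '' {v | ∃ n, (ray ω s n).1 = v} := by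
    ext v
    constructor
    · rintro ⟨n, hn⟩
      refine ⟨(ray ω s n).1, ⟨n, rfl⟩, ?_⟩
      rw [← hσ, ← hr]
      exact hn
    · rintro ⟨w, ⟨n, hn⟩, hw⟩
      refine ⟨n, ?_⟩
      rw [hr, hσ, hn]
      exact hw
  rw [h1, Set.infinite_image_iff hf.injOn]

theorem se_iff {ω ω' : Conf} {σ : State → State} (hσ : Function.Injective σ) (s t : State)
    (hs : ∀ n, ray ω' (σ s) n = σ (ray ω s n)) (ht : ∀ n, ray ω' (σ t) n = σ (ray ω t n)) :
    SE ω' (σ s) (σ t) ↔ SE ω s t := by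
  unfold SE
  constructor
  · rintro ⟨m, n, h⟩
    rw [hs, ht] at h
    exact ⟨m, n, hσ h⟩
  · rintro ⟨m, n, h⟩
    refine ⟨m, n, ?_⟩
    rw [hs, ht, h]

theorem cr_tr (z : ℤ × ℤ) (h : ℤ) (s : State) : Cr (h + z.2) (trS z s) ↔ Cr h s := by
  obtain ⟨⟨x, y⟩, d⟩ := s
  obtain ⟨a, b⟩ := z
  cases d <;> simp [Cr, trS] <;> omega

theorem cr_rf (h : ℤ) (s : State) : Cr h (rfS s) ↔ Cr h s := by
  obtain ⟨⟨x, y⟩, d⟩ := s
  cases d <;> simp [Cr, rfS, rfD]

theorem cr_sw (h : ℤ) (s : State) : Cr h (swS s) ↔ Cv h s := by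
  obtain ⟨⟨x, y⟩, d⟩ := s
  cases d <;> simp [Cr, Cv, swS, swD]

theorem cr_ud (h : ℤ) (s : State) : Cr (-h - 1) (swS (rfS (swS s))) ↔ Cr h s := by
  obtain ⟨⟨x, y⟩, d⟩ := s
  cases d <;> simp [Cr, swS, swD, rfS, rfD] <;> omega

theorem rfS_inj : Function.Injective rfS := fun a b h => by
  rw [← rfS_rfS a, h, rfS_rfS]

theorem swS_inj : Function.Injective swS := fun a b h => by
  rw [← swS_swS a, h, swS_swS]

theorem trS_inj (z : ℤ × ℤ) : Function.Injective (trS z) := fun a b h => by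
  simp only [trS, Prod.mk.injEq, add_left_inj] at h
  exact Prod.ext h.1 h.2

theorem unb_tr (z : ℤ × ℤ) (ω : Conf) (s : State) : Unb (tr z ω) (trS z s) ↔ Unb ω s :=
  unb_iff (f := fun v => v + z) (fun _ _ h => add_left_injective z h) (fun _ => rfl) s
    (fun n => ray_tr z ω s n)

theorem unb_rf (ω : Conf) (s : State) : Unb (rf ω) (rfS s) ↔ Unb ω s :=
  unb_iff (f := fun v => (-v.1, v.2)) (fun a b h => by
    simp only [Prod.mk.injEq, neg_inj] at h
    exact Prod.ext h.1 h.2) (fun _ => rfl) s (fun n => ray_rf ω s n)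

theorem unb_sw (ω : Conf) (s : State) : Unb (sw ω) (swS s) ↔ Unb ω s :=
  unb_iff (f := fun v => (v.2, v.1)) (fun a b h => by
    simp only [Prod.mk.injEq] at h
    exact Prod.ext h.2 h.1) (fun _ => rfl) s (fun n => ray_sw ω s n)

theorem wt_tr (z : ℤ × ℤ) (ω : Conf) (s : State) (h : ℤ) :
    (Wt (tr z ω) (h + z.2) (trS z s) ↔ Wt ω h s) ∧
      (Et (tr z ω) (h + z.2) (trS z s) ↔ Et ω h s) := by
  have hx : ∀ u : State, (trS z u).1.1 = u.1.1 + z.1 := fun _ => rfl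
  unfold Wt Et
  simp only [ray_tr, cr_tr, hx, unb_tr]
  refine ⟨and_congr_right fun _ => ⟨fun H c => ?_, fun H c => ?_⟩,
    and_congr_right fun _ => ⟨fun H c => ?_, fun H c => ?_⟩⟩
  · filter_upwards [H (c + z.1)] with n hn hc
    have := hn hc
    omega
  · filter_upwards [H (c - z.1)] with n hn hc
    have := hn hc
    omega
  · filter_upwards [H (c + z.1)] with n hn hc
    have := hn hc
    omega
  · filter_upwards [H (c - z.1)] with n hn hc
    have := hn hc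
    omega

theorem wt_rf (ω : Conf) (s : State) (h : ℤ) :
    (Wt (rf ω) h (rfS s) ↔ Et ω h s) ∧ (Et (rf ω) h (rfS s) ↔ Wt ω h s) := by
  have hx : ∀ u : State, (rfS u).1.1 = -u.1.1 := fun _ => rfl
  unfold Wt Et
  simp only [ray_rf, cr_rf, hx, unb_rf]
  refine ⟨and_congr_right fun _ => ⟨fun H c => ?_, fun H c => ?_⟩,
    and_congr_right fun _ => ⟨fun H c => ?_, fun H c => ?_⟩⟩
  · filter_upwards [H (-c)] with n hn hc
    have := hn hc
    omega
  · filter_upwards [H (-c)] with n hn hc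
    have := hn hc
    omega
  · filter_upwards [H (-c)] with n hn hc
    have := hn hc
    omega
  · filter_upwards [H (-c)] with n hn hc
    have := hn hc
    omega

theorem ray_ud (ω : Conf) (s : State) (n : ℕ) :
    ray (sw (rf (sw ω))) (swS (rfS (swS s))) n = swS (rfS (swS (ray ω s n))) := by
  rw [ray_sw, ray_rf, ray_sw]

theorem wt_ud (ω : Conf) (s : State) (h : ℤ) :
    Wt (sw (rf (sw ω))) (-h - 1) (swS (rfS (swS s))) ↔ Wt ω h s := by
  have hx : ∀ u : State, (swS (rfS (swS u))).1.1 = u.1.1 := fun _ => rfl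
  unfold Wt
  simp only [ray_ud, cr_ud, hx, unb_sw, unb_rf]

theorem sw_sw (ω : Conf) : sw (sw ω) = ω := rfl

end Symx

open Symx

theorem thm_Sym : St_Sym := by
  refine ⟨fun z ω s t h => ⟨unb_tr z ω s, (wt_tr z ω s h).1, (wt_tr z ω s h).2,
      se_iff (trS_inj z) s t (fun n => ray_tr z ω s n) (fun n => ray_tr z ω t n)⟩,
    fun ω s t h => ⟨unb_rf ω s, (wt_rf ω s h).1, (wt_rf ω s h).2,
      se_iff rfS_inj s t (fun n => ray_rf ω s n) (fun n => ray_rf ω t n)⟩,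
    fun ω s t => ⟨unb_sw ω s,
      se_iff swS_inj s t (fun n => ray_sw ω s n) (fun n => ray_sw ω t n)⟩,
    fun z s => ?_, fun s => ?_, fun h s => cr_sw h s, fun ω s h => ⟨wt_ud ω s h, ?_, ?_⟩⟩
  · show (s.1 - vec s.2 + z, s.2.opp) = (s.1 + z - vec s.2, s.2.opp)
    rw [Prod.mk.injEq]
    exact ⟨by abel, rfl⟩
  · obtain ⟨⟨x, y⟩, d⟩ := s
    constructor
    · cases d <;> simp [rfS, rfD, rev, vec, Dir.opp] <;> ring
    · cases d <;> simp [swS, swD, rev, vec, Dir.opp]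
  · rw [sw_sw, swS_swS]
    exact (wt_rf (sw ω) (swS s) h).1
  · rw [sw_sw, swS_swS]
    exact (wt_rf (sw ω) (swS s) h).2

end Pool.Agent.MHF
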