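import Pool.Agent.MHF.St
import Pool.Agent.Mir.Prob

/-!
# [Un] There is at most one end of type W, and at most one of type E
-/

set_option autoImplicit false

open MeasureTheory Filter Mir

noncomputable section

namespace Pool.Agent.MHF

private theorem Un_sq (s t : State) : ∃ N : ℕ, s.1 ∈ sq N ∧ t.1 ∈ sq N := by
  refine ⟨s.1.1.natAbs + s.1.2.natAbs + t.1.1.natAbs + t.1.2.natAbs, ?_, ?_⟩
  · simp only [sq, Finset.mem_product, Finset.mem_Icc]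
    refine ⟨⟨?_, ?_⟩, ?_, ?_⟩ <;> omega
  · simp only [sq, Finset.mem_product, Finset.mem_Icc]
    refine ⟨⟨?_, ?_⟩, ?_, ?_⟩ <;> omega

private theorem Un_W (hMt : St_Mt) (hFe : St_Fe) (hRej : St_Rej) {p : ℝ} (h0 : 0 < p) (h1 : p < 1)
    (h : ℤ) : ∀ᵐ ω ∂(mir p), ∀ s t : State, Wt ω h s → Wt ω h t → SE ω s t := by
  have hX : ∀ᵐ ω ∂(mir p), ω ∉ {ω : Conf | ∃ s : State, Wt ω h s ∧ Wt ω h (rev s)} :=
    hMt p h0 h1 h
  have hN : ∀ᵐ ω ∂(mir p), ∀ N : ℕ, ∀ η : Conf,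
      ov (sq N) η ω ∉ {ω : Conf | ∃ s : State, Wt ω h s ∧ Wt ω h (rev s)} :=
    ae_all_iff.mpr fun N => hFe p h0 h1 (sq N) _ hX
  filter_upwards [hN] with ω hω s t hs ht
  by_contra hc
  obtain ⟨N, hNs, hNt⟩ := Un_sq s t
  obtain ⟨η, s', hs'⟩ := hRej ω N s t hs.1 ht.1 hc hNs hNt
  obtain ⟨a, -, b, -⟩ := hs' h
  exact hω N η ⟨s', a.mpr hs, b.mpr ht⟩

/-- **Un**. -/
theorem thm_Un (hMt : St_Mt) (hFe : St_Fe) (hRej : St_Rej) (hSym : St_Sym) : St_Un := by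
  intro p h0 h1 h
  have hW := Un_W hMt hFe hRej h0 h1 h
  have hE : ∀ᵐ ω ∂(mir p), ∀ s t : State, Wt (rf ω) h s → Wt (rf ω) h t → SE (rf ω) s t :=
    (rf_preserving h0.le h1.le).quasiMeasurePreserving.ae hW
  filter_upwards [hW, hE] with ω hω hω' s t
  refine ⟨hω s t, fun hs ht => ?_⟩
  obtain ⟨-, a, -, b⟩ := hSym.2.1 ω s t h
  obtain ⟨-, a', -, -⟩ := hSym.2.1 ω t t h
  exact b.mp (hω' _ _ (a.mpr hs) (a'.mpr ht))

end Pool.Agent.MHF
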